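import Pool.Agent.Helper85.Finitary.Coin

/-!
Arithmetic of areas, and the output maps `Out`.
-/

set_option autoImplicit false
open MeasureTheory Set

namespace Pool.Agent.Helper85.Finitary

/-- index of the area (between `0` and `n`) containing the position `q` -/
def ar (n M : ℕ) (q : ℤ) : ℕ := ((q / (M : ℤ)) % ((n : ℤ) + 1)).toNat

lemma ar_cast (n M : ℕ) (q : ℤ) : ((ar n M q : ℕ) : ℤ) = (q / (M : ℤ)) % ((n : ℤ) + 1) := by
  unfold ar
  rw [Int.toNat_of_nonneg]
  exact Int.emod_nonneg _ (by omega)

lemma ar_le (n M : ℕ) (q : ℤ) : ar n M q ≤ n := by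
  have h := ar_cast n M q
  have h2 : (q / (M : ℤ)) % ((n : ℤ) + 1) < (n : ℤ) + 1 := Int.emod_lt_of_pos _ (by omega)
  omega

lemma ar_add {n M : ℕ} (hM : 0 < M) {q b : ℤ} (h0 : 0 ≤ (ar n M q : ℤ) + b)
    (h1 : (ar n M q : ℤ) + b ≤ n) : (ar n M (q + b * M) : ℤ) = ar n M q + b := by
  rw [ar_cast, Int.add_mul_ediv_right _ _ (by omega : (M : ℤ) ≠ 0), Int.add_emod]
  have h := ar_cast n M q
  rw [← h, Int.add_emod_emod]
  exact Int.emod_eq_of_lt h0 (by omega)

lemma ar_add_period {n M : ℕ} (hM : 0 < M) (q k : ℤ) :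
    ar n M (q + k * (((n + 1) * M : ℕ) : ℤ)) = ar n M q := by
  unfold ar
  congr 1
  have : q + k * (((n + 1) * M : ℕ) : ℤ) = q + (k * ((n : ℤ) + 1)) * M := by
    push_cast; ring
  rw [this, Int.add_mul_ediv_right _ _ (by omega : (M : ℤ) ≠ 0)]
  rw [Int.add_mul_emod_self_right]

/-- the next position in the cyclic arrangement of the first `n` areas -/
def nx (n M : ℕ) (q : ℤ) : ℤ :=
  if ar n M q + 1 = n then q - ((n : ℤ) - 1) * M else q + M

/-- the bit track -/
def bt (n M : ℕ) (ω : ℤ → Bool) (q : ℤ) : Bool :=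
  if ar n M q = n then ω q else xor (ω q) (ω (nx n M q))

/-- the extra bit track -/
def eb (n M : ℕ) (ω : ℤ → Bool) (q : ℤ) : Bool :=
  if ar n M q = n then ω (q - n * M) else false

/-- the output when the area `j` is replaced by extra bits -/
def Out (n M j : ℕ) (ω : ℤ → Bool) (q : ℤ) : Bool :=
  if ar n M q = j then ω (q - j * M) else bt n M ω q

lemma Out_eq_eb {n M j : ℕ} (hM : 0 < M) (hj : j < n) (ω : ℤ → Bool) {q : ℤ}
    (hq : ar n M q = j) : Out n M j ω q = eb n M ω (q + ((n : ℤ) - j) * M) := by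
  unfold Out eb
  have h := ar_add (n := n) (M := M) hM (q := q) (b := (n : ℤ) - j) (by omega) (by omega)
  have h2 : ar n M (q + ((n : ℤ) - j) * M) = n := by omega
  rw [if_pos hq, if_pos h2]
  congr 1
  ring

lemma bt_eq {n M : ℕ} (hM : 0 < M) (ω : ℤ → Bool) {q0 : ℤ} (h0 : ar n M q0 = 0) {b : ℕ}
    (hb : b ≤ n) : bt n M ω (q0 + b * M) =
      if b = n then ω (q0 + n * M) else
        xor (ω (q0 + b * M)) (ω (q0 + (if b + 1 = n then 0 else b + 1 : ℕ) * M)) := by
  have h := ar_add (n := n) (M := M) hM (q := q0) (b := b) (by omega) (by omega)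
  have h2 : ar n M (q0 + b * M) = b := by omega
  unfold bt
  rw [h2]
  by_cases hbn : b = n
  · subst hbn; simp
  · rw [if_neg hbn, if_neg hbn]
    congr 2
    unfold nx
    rw [h2]
    by_cases hb1 : b + 1 = n
    · rw [if_pos hb1, if_pos hb1]
      have : (n : ℤ) = b + 1 := by omega
      rw [this]; push_cast; ring
    · rw [if_neg hb1, if_neg hb1]
      push_cast; ring

lemma Out_eq {n M j : ℕ} (hM : 0 < M) (ω : ℤ → Bool) {q0 : ℤ} (h0 : ar n M q0 = 0)
    {b : ℕ} (hb : b ≤ n) : Out n M j ω (q0 + b * M) =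
      if b = j then ω q0 else if b = n then ω (q0 + n * M) else
        xor (ω (q0 + b * M)) (ω (q0 + (if b + 1 = n then 0 else b + 1 : ℕ) * M)) := by
  have h := ar_add (n := n) (M := M) hM (q := q0) (b := b) (by omega) (by omega)
  have h2 : ar n M (q0 + b * M) = b := by omega
  unfold Out
  rw [h2]
  by_cases hbj : b = j
  · subst hbj
    rw [if_pos rfl, if_pos rfl]
    congr 1
    ring
  · rw [if_neg hbj, if_neg hbj]
    exact bt_eq hM ω h0 hb

lemma Out_class {n M j : ℕ} (hM : 0 < M) (hj : j < n) (ω ω' : ℤ → Bool) {q0 : ℤ}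
    (h0 : ar n M q0 = 0) :
    (∀ b ≤ n, Out n M j ω (q0 + (b : ℕ) * M) = Out n M j ω' (q0 + (b : ℕ) * M)) ↔
      (∀ b ≤ n, ω (q0 + (b : ℕ) * M) = ω' (q0 + (b : ℕ) * M)) := by
  constructor
  · intro h
    have h1 : ∀ b ≤ n, _ := fun b hb => by
      have := h b hb
      rw [Out_eq hM ω h0 hb, Out_eq hM ω' h0 hb] at this
      exact this
    have hz : ω q0 = ω' q0 := by simpa using h1 j hj.le
    have hn : ω (q0 + (n : ℕ) * M) = ω' (q0 + (n : ℕ) * M) := by
      have hnj : ¬ n = j := by omega
      simpa [hnj] using h1 n le_rfl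
    have hup : ∀ b : ℕ, b ≤ j → ω (q0 + (b : ℕ) * M) = ω' (q0 + (b : ℕ) * M) := by
      intro b
      induction b with
      | zero => intro _; simpa using hz
      | succ b ih =>
        intro hb
        have ih' := ih (by omega)
        have := h1 b (by omega)
        rw [if_neg (by omega), if_neg (by omega), if_neg (by omega), if_neg (by omega),
          if_neg (by omega), ih'] at this
        exact (Bool.xor_right_inj).1 this
    have hdown : ∀ d : ℕ, ∀ b : ℕ, b + 1 + d = n → j < b →
        ω (q0 + (b : ℕ) * M) = ω' (q0 + (b : ℕ) * M) := by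
      intro d
      induction d with
      | zero =>
        intro b hb hjb
        have := h1 b (by omega)
        rw [if_neg (by omega), if_neg (by omega), if_pos (by omega), if_neg (by omega),
          if_neg (by omega)] at this
        simp only [Nat.cast_zero, zero_mul, add_zero] at this
        rw [hz] at this
        exact (Bool.xor_left_inj).1 this
      | succ d ih =>
        intro b hb hjb
        have ih' := ih (b + 1) (by omega) (by omega)
        have := h1 b (by omega)
        rw [if_neg (by omega), if_neg (by omega), if_neg (by omega), if_neg (by omega),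
          if_neg (by omega), ih'] at this
        exact (Bool.xor_left_inj).1 this
    intro b hb
    rcases Nat.lt_or_ge j b with h2 | h2
    · rcases Nat.lt_or_ge b n with h3 | h3
      · exact hdown (n - 1 - b) b (by omega) h2
      · have : b = n := by omega
        subst this; exact hn
    · exact hup b h2
  · intro h b hb
    have hz : ω q0 = ω' q0 := by simpa using h 0 (Nat.zero_le _)
    rw [Out_eq hM ω h0 hb, Out_eq hM ω' h0 hb, hz, h n le_rfl, h b hb]
    by_cases hbn : b = n
    · simp [hbn]
    · rw [h _ (show (if b + 1 = n then 0 else b + 1) ≤ n by split_ifs <;> omega)]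

theorem measurePreserving_Out {n M j : ℕ} (hM : 0 < M) (hj : j < n) :
    MeasurePreserving (Out n M j) lam lam := by
  classical
  apply measurePreserving_of_local
  intro S
  refine ⟨S.biUnion fun q => (Finset.range (n + 1)).image
    fun b : ℕ => q - (ar n M q : ℤ) * M + (b : ℤ) * M, ?_, ?_⟩
  · intro q hq
    rw [Finset.mem_biUnion]
    refine ⟨q, hq, ?_⟩
    rw [Finset.mem_image]
    refine ⟨ar n M q, ?_, by ring⟩
    rw [Finset.mem_range]
    have := ar_le n M q
    omega
  · intro ω ω'
    have key : ∀ f g : ℤ → Bool, (∀ q ∈ S.biUnion fun q => (Finset.range (n + 1)).image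
        fun b : ℕ => q - (ar n M q : ℤ) * M + (b : ℤ) * M, f q = g q) ↔
        ∀ q ∈ S, ∀ b ≤ n, f (q - (ar n M q : ℤ) * M + ((b : ℕ) : ℤ) * M)
          = g (q - (ar n M q : ℤ) * M + ((b : ℕ) : ℤ) * M) := by
      intro f g
      constructor
      · intro h q hq b hb
        apply h
        rw [Finset.mem_biUnion]
        refine ⟨q, hq, ?_⟩
        rw [Finset.mem_image]
        exact ⟨b, Finset.mem_range.2 (by omega), rfl⟩
      · intro h q hq
        rw [Finset.mem_biUnion] at hq
        obtain ⟨q', hq', hq⟩ := hq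
        rw [Finset.mem_image] at hq
        obtain ⟨b, hb, rfl⟩ := hq
        rw [Finset.mem_range] at hb
        exact h q' hq' b (by omega)
    rw [key, key]
    refine forall_congr' fun q => ?_
    refine imp_congr_right fun _ => ?_
    apply Out_class hM hj
    have h := ar_add (n := n) (M := M) hM (q := q) (b := -(ar n M q : ℤ)) (by omega) (by omega)
    have h2 : q + -(ar n M q : ℤ) * M = q - (ar n M q : ℤ) * M := by ring
    rw [h2] at h
    omega

end Pool.Agent.Helper85.Finitary
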