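import Mathlib

/-!
The two-sided fair coin measure and maps preserving it.
-/

set_option autoImplicit false
open MeasureTheory Set
open scoped ENNReal

namespace Pool.Agent.Helper85.Finitary

/-- shift by `r` -/
def sh {α : Type} (r : ℤ) (x : ℤ → α) : ℤ → α := fun k => x (k + r)

lemma sh_apply {α : Type} (r : ℤ) (x : ℤ → α) (k : ℤ) : sh r x k = x (k + r) := rfl

lemma sh_sh {α : Type} (r s : ℤ) (x : ℤ → α) : sh r (sh s x) = sh (r + s) x := by
  funext k; simp [sh, add_assoc]

lemma sh_zero {α : Type} (x : ℤ → α) : sh 0 x = x := by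
  funext k; simp [sh]

lemma measurable_sh {α : Type} [MeasurableSpace α] (r : ℤ) :
    Measurable (sh r : (ℤ → α) → ℤ → α) :=
  measurable_pi_lambda _ fun k => measurable_pi_apply (k + r)

/-- the fair coin -/
noncomputable def coin : Measure Bool := (2⁻¹ : ℝ≥0∞) • (Measure.dirac true + Measure.dirac false)

lemma coin_singleton (b : Bool) : coin {b} = 2⁻¹ := by
  unfold coin
  cases b <;> simp

instance : IsProbabilityMeasure coin := by
  constructor
  unfold coin
  simp only [Measure.smul_apply, Measure.add_apply, measure_univ, smul_eq_mul]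
  rw [one_add_one_eq_two]
  exact ENNReal.inv_mul_cancel (by norm_num) (by norm_num)

/-- the fair coin as a probability measure -/
noncomputable def coinP : ProbabilityMeasure Bool := ⟨coin, inferInstance⟩

/-- i.i.d. fair bits indexed by `ℤ` -/
noncomputable def lam : Measure (ℤ → Bool) := Measure.infinitePi fun _ : ℤ => coin

instance : IsProbabilityMeasure lam := by unfold lam; infer_instance

lemma lam_cyl (S : Finset ℤ) (w : ℤ → Bool) : lam {z | ∀ i ∈ S, z i = w i} = 2⁻¹ ^ S.card := by
  have h : {z : ℤ → Bool | ∀ i ∈ S, z i = w i} = Set.pi (S : Set ℤ) fun i => {w i} := by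
    ext z; simp [Set.mem_pi]
  rw [h]
  unfold lam
  rw [Measure.infinitePi_pi]
  · simp [coin_singleton]
  · intro i _; exact measurableSet_singleton _

lemma measurePreserving_sh (r : ℤ) : MeasurePreserving (sh r) lam lam := by
  refine ⟨measurable_sh r, ?_⟩
  unfold lam
  have h := Measure.infinitePi_map_piCongrLeft (μ := fun _ : ℤ => coin) (Equiv.addRight (-r))
  have h2 : (sh r : (ℤ → Bool) → ℤ → Bool)
      = MeasurableEquiv.piCongrLeft (fun _ : ℤ => Bool) (Equiv.addRight (-r)) := by
    funext x k
    rw [MeasurableEquiv.coe_piCongrLeft, Equiv.piCongrLeft_apply]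
    simp only [sh, Equiv.addRight_symm, Equiv.coe_addRight, neg_neg]
    exact (eq_rec_constant _ _).symm
  rw [h2]
  exact h

lemma measure_eq_of_cylinders {μ ν : Measure (ℤ → Bool)} [IsFiniteMeasure μ] [IsFiniteMeasure ν]
    (h : ∀ I : Finset ℤ, μ.map I.restrict = ν.map I.restrict) : μ = ν := by
  have h1 : IsProjectiveLimit μ (fun I : Finset ℤ => ν.map I.restrict) := fun I => h I
  have h2 : IsProjectiveLimit ν (fun I : Finset ℤ => ν.map I.restrict) := fun I => rfl
  have : ∀ I : Finset ℤ, IsFiniteMeasure (ν.map I.restrict) := fun I => inferInstance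
  exact h1.unique h2

/-- A map which is finitely local with finitely local inverse preserves the coin measure. -/
theorem measurePreserving_of_local (G : (ℤ → Bool) → ℤ → Bool)
    (hG : ∀ S : Finset ℤ, ∃ S' : Finset ℤ, S ⊆ S' ∧
      ∀ ω ω' : ℤ → Bool, (∀ q ∈ S', G ω q = G ω' q) ↔ (∀ q ∈ S', ω q = ω' q)) :
    MeasurePreserving G lam lam := by
  classical
  let ext (S : Finset ℤ) (v : S → Bool) : ℤ → Bool := fun q => if h : q ∈ S then v ⟨q, h⟩ else false
  have hext : ∀ (S : Finset ℤ) (v : S → Bool) (q : ℤ) (h : q ∈ S), ext S v q = v ⟨q, h⟩ := by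
    intro S v q h; simp [ext, h]
  have hmeas : Measurable G := by
    refine measurable_pi_lambda _ fun q => ?_
    obtain ⟨S', hS, hS'⟩ := hG {q}
    have hq : q ∈ S' := hS (by simp)
    have : (fun ω => G ω q) = (fun v : S' → Bool => G (ext S' v) q) ∘ S'.restrict := by
      funext ω
      simp only [Function.comp]
      refine (hS' ω _).2 (fun q' hq' => ?_) q hq
      rw [hext S' _ q' hq']
      rfl
    rw [this]
    exact (measurable_of_countable _).comp (Finset.measurable_restrict S')
  refine ⟨hmeas, ?_⟩
  have : IsProbabilityMeasure (lam.map G) := Measure.isProbabilityMeasure_map hmeas.aemeasurable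
  apply measure_eq_of_cylinders
  intro I
  obtain ⟨S', hS, hS'⟩ := hG I
  let g : (S' → Bool) → (S' → Bool) := fun v q => G (ext S' v) q
  have hg : ∀ ω, S'.restrict (G ω) = g (S'.restrict ω) := by
    intro ω
    funext q
    simp only [Finset.restrict, g]
    refine (hS' ω _).2 (fun q' hq' => ?_) q q.2
    rw [hext S' _ q' hq']
    rfl
  have hinj : Function.Injective g := by
    intro v v' hvv
    have h1 : ∀ q ∈ S', G (ext S' v) q = G (ext S' v') q := fun q hq => congrFun hvv ⟨q, hq⟩
    have h2 := (hS' _ _).1 h1
    funext q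
    have := h2 q q.2
    rwa [hext, hext] at this
  have hbij : Function.Bijective g := Finite.injective_iff_bijective.1 hinj
  have hinv : (Measure.pi fun _ : S' => coin).map g = Measure.pi fun _ : S' => coin := by
    apply Measure.ext_of_singleton
    intro v
    rw [Measure.map_apply (measurable_of_countable _) (measurableSet_singleton _)]
    obtain ⟨u, rfl⟩ := hbij.2 v
    have : g ⁻¹' {g u} = {u} := by
      ext u'
      simp only [mem_preimage, mem_singleton_iff]
      exact hinj.eq_iff
    rw [this]
    rw [Measure.pi_singleton, Measure.pi_singleton]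
    simp [coin_singleton]
  have h1 : (lam.map G).map S'.restrict = lam.map S'.restrict := by
    rw [Measure.map_map (Finset.measurable_restrict S') hmeas]
    have : S'.restrict ∘ G = g ∘ S'.restrict := funext hg
    rw [this]
    have h4 : Measure.map (g ∘ S'.restrict) lam = Measure.map g (Measure.map S'.restrict lam) :=
      (Measure.map_map (measurable_of_countable g) (Finset.measurable_restrict S')).symm
    rw [h4]
    have h3 : lam.map S'.restrict = Measure.pi fun _ : S' => coin := by
      unfold lam
      exact Measure.infinitePi_map_restrict _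
    rw [h3, hinv]
  have h2 : (I.restrict : (ℤ → Bool) → _) = Finset.restrict₂ hS ∘ S'.restrict := rfl
  rw [h2, ← Measure.map_map (Finset.measurable_restrict₂ hS) (Finset.measurable_restrict S'),
    ← Measure.map_map (Finset.measurable_restrict₂ hS) (Finset.measurable_restrict S'), h1]

end Pool.Agent.Helper85.Finitary
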