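import Pool.Agent.Helper85.Finitary.Area

/-!
Periodic block processes and their mixtures.
-/

set_option autoImplicit false
open MeasureTheory Set
open scoped ENNReal

namespace Pool.Agent.Helper85.Finitary

/-- letters: bit, extra bit, mark -/
abbrev Al : Type := Bool × Bool × Fin 4

/-- a periodic coding of coin tosses -/
structure Comp where
  P : ℕ
  hP : 0 < P
  Ψ : (ℤ → Bool) → ℤ → Al
  meas : Measurable Ψ
  equi : ∀ ω, Ψ (sh (P : ℤ) ω) = sh (P : ℤ) (Ψ ω)

namespace Comp

variable (c : Comp)

/-- the law with phase `r` -/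
noncomputable def ph (r : ℤ) : Measure (ℤ → Al) := lam.map fun ω => sh r (c.Ψ ω)

lemma meas_ph (r : ℤ) : Measurable fun ω => sh r (c.Ψ ω) := (measurable_sh r).comp c.meas

instance (r : ℤ) : IsProbabilityMeasure (c.ph r) :=
  Measure.isProbabilityMeasure_map (c.meas_ph r).aemeasurable

lemma ph_sh (r s : ℤ) : (c.ph r).map (sh s) = c.ph (r + s) := by
  unfold ph
  rw [Measure.map_map (measurable_sh s) (c.meas_ph r)]
  congr 1
  funext ω
  simp only [Function.comp, sh_sh]
  rw [add_comm]

lemma ph_period (r : ℤ) : c.ph (r + c.P) = c.ph r := by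
  unfold ph
  have h : (fun ω => sh (r + c.P) (c.Ψ ω)) = (fun ω => sh r (c.Ψ ω)) ∘ sh (c.P : ℤ) := by
    funext ω
    simp only [Function.comp]
    rw [c.equi, sh_sh]
  rw [h, ← Measure.map_map (c.meas_ph r) (measurable_sh _), (measurePreserving_sh _).map_eq]

lemma ph_period_mul (r : ℤ) (k : ℕ) : c.ph (r + k * c.P) = c.ph r := by
  induction k with
  | zero => simp
  | succ k ih =>
    have : r + ((k + 1 : ℕ) : ℤ) * c.P = (r + k * c.P) + c.P := by push_cast; ring
    rw [this, c.ph_period, ih]

/-- the stationary law -/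
noncomputable def law : Measure (ℤ → Al) :=
  (c.P : ℝ≥0∞)⁻¹ • ∑ r ∈ Finset.range c.P, c.ph r

instance : IsProbabilityMeasure c.law := by
  constructor
  unfold law
  simp only [Measure.smul_apply, Measure.coe_finsetSum, Finset.sum_apply, measure_univ,
    Finset.sum_const, Finset.card_range, nsmul_eq_mul, mul_one, smul_eq_mul]
  exact ENNReal.inv_mul_cancel (by have := c.hP; simp; omega) (by simp)

lemma law_sh : c.law.map (sh 1) = c.law := by
  unfold law
  rw [Measure.map_smul]
  congr 1
  obtain ⟨P', hP'⟩ : ∃ P', c.P = P' + 1 := ⟨c.P - 1, by have := c.hP; omega⟩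
  have h1 : (∑ r ∈ Finset.range c.P, c.ph r).map (sh 1)
      = ∑ r ∈ Finset.range c.P, c.ph ((r : ℤ) + 1) := by
    ext s hs
    rw [Measure.map_apply (measurable_sh 1) hs]
    simp only [Measure.coe_finsetSum, Finset.sum_apply]
    refine Finset.sum_congr rfl fun r _ => ?_
    rw [← c.ph_sh, Measure.map_apply (measurable_sh 1) hs]
  rw [h1, hP', Finset.sum_range_succ, Finset.sum_range_succ']
  have h2 : ((P' : ℤ) + 1) = 0 + c.P := by rw [hP']; push_cast; ring
  rw [h2, c.ph_period]
  simp

/-- a bound for one phase in terms of the stationary law -/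
lemma ph_le (s : Set (ℤ → Al)) {r : ℕ} (hr : r < c.P) : c.ph r s ≤ c.P * c.law s := by
  unfold law
  simp only [Measure.smul_apply, Measure.coe_finsetSum, Finset.sum_apply, smul_eq_mul]
  rw [← mul_assoc, ENNReal.mul_inv_cancel (by have := c.hP; simp; omega) (by simp), one_mul]
  exact Finset.single_le_sum (f := fun r : ℕ => c.ph r s) (fun _ _ => bot_le)
    (Finset.mem_range.2 hr)

lemma ph_le' (s : Set (ℤ → Al)) (q : ℕ) : c.ph q s ≤ c.P * c.law s := by
  have h1 : ((q : ℕ) : ℤ) = ((q % c.P : ℕ) : ℤ) + ((q / c.P : ℕ) : ℤ) * c.P := by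
    have := Nat.mod_add_div q c.P
    have h2 : ((q % c.P + c.P * (q / c.P) : ℕ) : ℤ) = q := by rw [this]
    rw [← h2]; push_cast; ring
  rw [h1, c.ph_period_mul]
  exact c.ph_le s (Nat.mod_lt _ c.hP)

end Comp

/-- weights -/
noncomputable def wt (k : ℕ) : ℝ≥0∞ := 2⁻¹ ^ (k + 1)

lemma tsum_wt : ∑' k, wt k = 1 := by
  unfold wt
  exact ENNReal.tsum_geometric_add_one 2⁻¹ |>.trans (by
    rw [ENNReal.one_sub_inv_two, inv_inv]
    exact ENNReal.inv_mul_cancel (by norm_num) (by norm_num))

lemma wt_ne_top (k : ℕ) : wt k ≠ ∞ := by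
  unfold wt
  exact ENNReal.pow_ne_top (by simp)

/-- mixture of a sequence of components -/
noncomputable def mix (c : ℕ → Comp) : Measure (ℤ → Al) :=
  Measure.sum fun k => wt k • (c k).law

lemma mix_apply (c : ℕ → Comp) {s : Set (ℤ → Al)} (hs : MeasurableSet s) :
    mix c s = ∑' k, wt k * (c k).law s := by
  unfold mix
  rw [Measure.sum_apply _ hs]
  rfl

instance (c : ℕ → Comp) : IsProbabilityMeasure (mix c) := by
  constructor
  rw [mix_apply c MeasurableSet.univ]
  simp [tsum_wt]

lemma mix_sh (c : ℕ → Comp) : (mix c).map (sh 1) = mix c := by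
  ext s hs
  rw [Measure.map_apply (measurable_sh 1) hs, mix_apply c (measurable_sh 1 hs), mix_apply c hs]
  congr 1
  funext k
  rw [← Measure.map_apply (measurable_sh 1) hs, (c k).law_sh]

lemma wt_mul_law_le (c : ℕ → Comp) (k : ℕ) (s : Set (ℤ → Al)) :
    wt k * (c k).law s ≤ mix c s := by
  unfold mix
  have := Measure.le_sum_apply (fun k => wt k • (c k).law) s
  refine le_trans ?_ this
  exact ENNReal.le_tsum (f := fun k => (wt k • (c k).law) s) k

/-- the mixture as a probability measure -/
noncomputable def mixP (c : ℕ → Comp) : ProbabilityMeasure (ℤ → Al) := ⟨mix c, inferInstance⟩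

theorem continuous_mixP (c : Bool → ℕ → Comp) :
    Continuous fun b : ℕ → Bool => mixP fun k => c (b k) k := by
  rw [continuous_iff_continuousAt]
  intro b
  unfold ContinuousAt
  rw [ProbabilityMeasure.tendsto_iff_forall_integral_tendsto]
  intro f
  have key : ∀ b : ℕ → Bool, ∫ x, f x ∂((mixP fun k => c (b k) k : ProbabilityMeasure _) :
      Measure (ℤ → Al)) = ∑' k, (wt k).toReal * ∫ x, f x ∂(c (b k) k).law := by
    intro b
    change ∫ x, f x ∂(mix fun k => c (b k) k) = _
    unfold mix
    rw [integral_sum_measure]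
    · congr 1
      funext k
      rw [integral_smul_measure]
      rfl
    · exact f.integrable (mix fun k => c (b k) k)
  simp_rw [key]
  have hc : Continuous fun b : ℕ → Bool => ∑' k, (wt k).toReal * ∫ x, f x ∂(c (b k) k).law := by
    apply continuous_tsum (u := fun k => (wt k).toReal * ‖f‖)
    · intro k
      refine continuous_const.mul ?_
      have : (fun b : ℕ → Bool => ∫ x, f x ∂(c (b k) k).law)
          = (fun v : Bool => ∫ x, f x ∂(c v k).law) ∘ fun b : ℕ → Bool => b k := rfl
      rw [this]
      exact continuous_of_discreteTopology.comp (continuous_apply k)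
    · refine Summable.mul_right _ ?_
      exact ENNReal.summable_toReal (by rw [tsum_wt]; simp)
    · intro k b
      rw [norm_mul, Real.norm_of_nonneg ENNReal.toReal_nonneg]
      refine mul_le_mul_of_nonneg_left ?_ ENNReal.toReal_nonneg
      refine (norm_integral_le_of_norm_le_const (C := ‖f‖) ?_).trans ?_
      · exact Filter.Eventually.of_forall fun x => f.norm_coe_le_norm x
      · simp
  exact hc.tendsto b

end Pool.Agent.Helper85.Finitary
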