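import Pool.Agent.Helper85.Finitary.Comp

/-!
The components: `nuC j` and `kaC s`.
-/

set_option autoImplicit false
open MeasureTheory Set
open scoped ENNReal

namespace Pool.Agent.Helper85.Finitary

/-- index set of the components -/
abbrev Idx : Type := ℕ ⊕ List ℕ

/-- the list as a function -/
def val (s : List ℕ) (a : ℕ) : ℕ := s.getD a 0

/-- length of the segments of type `a` -/
def Lg (s : List ℕ) (a : ℕ) : ℕ := (a + 2) * (val s a + 1)

/-- index of the component of `s` -/
def ix (s : List ℕ) : ℕ := Encodable.encode (Sum.inr s : Idx)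

/-- a large number -/
def big (s : List ℕ) : ℕ :=
  (s.length + 1) * 2 ^ (ix s + 3) + ∑ a ∈ Finset.range s.length, Lg s a

/-- half of the size of the areas -/
def Nh (s : List ℕ) : ℕ := (Nat.pair (ix s) (big s)).factorial

/-- size of the areas -/
def Ms (s : List ℕ) : ℕ := 2 * Nh s

lemma Lg_pos (s : List ℕ) (a : ℕ) : 2 ≤ Lg s a := by
  unfold Lg
  nlinarith [Nat.zero_le (val s a), Nat.zero_le a, Nat.zero_le (a * val s a)]

lemma big_ge (s : List ℕ) : (s.length + 1) * 2 ^ (ix s + 3) ≤ big s := Nat.le_add_right _ _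

lemma big_ge8 (s : List ℕ) : 8 ≤ big s := by
  refine le_trans ?_ (big_ge s)
  have h1 : 1 ≤ s.length + 1 := by omega
  have h2 : 8 ≤ 2 ^ (ix s + 3) := by
    rw [pow_add]
    have := Nat.one_le_two_pow (n := ix s)
    omega
  calc 8 = 1 * 8 := rfl
    _ ≤ _ := Nat.mul_le_mul h1 h2

lemma Nh_ge (s : List ℕ) : big s ≤ Nh s :=
  (Nat.right_le_pair _ _).trans (Nat.self_le_factorial _)

lemma Nh_pos (s : List ℕ) : 0 < Nh s := Nat.factorial_pos _

lemma Ms_pos (s : List ℕ) : 0 < Ms s := by
  unfold Ms; have := Nh_pos s; omega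

lemma Lg_dvd (s : List ℕ) {a : ℕ} (ha : a < s.length) : Lg s a ∣ Ms s := by
  unfold Ms Nh
  refine Dvd.dvd.mul_left (Nat.dvd_factorial (by have := Lg_pos s a; omega) ?_) _
  refine le_trans ?_ (Nat.right_le_pair _ _)
  unfold big
  refine le_trans ?_ (Nat.le_add_left _ _)
  exact Finset.single_le_sum (f := Lg s) (fun _ _ => Nat.zero_le _) (Finset.mem_range.2 ha)

lemma two_dvd_Lg (s : List ℕ) (a : ℕ) : a + 2 ∣ Lg s a := Dvd.intro _ rfl

lemma Ms_inj {s s' : List ℕ} (h : Ms s = Ms s') : s = s' := by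
  unfold Ms Nh at h
  have h1 : (Nat.pair (ix s) (big s)).factorial = (Nat.pair (ix s') (big s')).factorial := by omega
  have h2 : 1 < Nat.pair (ix s) (big s) :=
    lt_of_lt_of_le (by have := big_ge8 s; omega) (Nat.right_le_pair _ _)
  have h3 := (Nat.factorial_inj h2).1 h1
  have h4 := (Nat.pair_eq_pair.1 h3).1
  have h5 := Encodable.encode_injective h4
  exact Sum.inr_injective h5

lemma main_ineq (s : List ℕ) : (s.length + 1) * Ms s * 2 ^ (ix s + 2) < 2 ^ Nh s := by
  have h1 := big_ge s
  have h2 := Nh_ge s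
  have h3 : (s.length + 1) * Ms s * 2 ^ (ix s + 2) = (s.length + 1) * 2 ^ (ix s + 3) * Nh s := by
    unfold Ms; rw [pow_succ 2 (ix s + 2)]; ring
  rw [h3]
  have h4 : (s.length + 1) * 2 ^ (ix s + 3) * Nh s ≤ Nh s * Nh s :=
    Nat.mul_le_mul_right _ (h1.trans h2)
  refine lt_of_le_of_lt h4 ?_
  have h5 : 5 ≤ Nh s := by have := big_ge8 s; omega
  have key : ∀ N : ℕ, 5 ≤ N → N * N < 2 ^ N := by
    intro N hN
    induction N, hN using Nat.le_induction with
    | base => norm_num
    | succ N hN ih =>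
      rw [pow_succ]
      nlinarith
  exact key _ h5

/-- marks of the component of `s` -/
def mk (s : List ℕ) (q : ℤ) : Fin 4 :=
  if ar s.length (Ms s) q = s.length then 3
  else if ((Lg s (ar s.length (Ms s) q) : ℕ) : ℤ) ∣ q then 2
  else if ((ar s.length (Ms s) q + 2 : ℕ) : ℤ) ∣ q then 1 else 0

lemma mk_eq_three {s : List ℕ} {q : ℤ} : mk s q = 3 ↔ ar s.length (Ms s) q = s.length := by
  unfold mk
  split_ifs with h1 h2 h3 <;> simp_all

lemma mk_period (s : List ℕ) (q k : ℤ) :
    mk s (q + k * (((s.length + 1) * Ms s : ℕ) : ℤ)) = mk s q := by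
  unfold mk
  rw [ar_add_period (Ms_pos s)]
  by_cases h : ar s.length (Ms s) q = s.length
  · rw [if_pos h, if_pos h]
  · rw [if_neg h, if_neg h]
    have ha : ar s.length (Ms s) q < s.length :=
      lt_of_le_of_ne (ar_le _ _ _) h
    have hL : ((Lg s (ar s.length (Ms s) q) : ℕ) : ℤ) ∣
        k * (((s.length + 1) * Ms s : ℕ) : ℤ) := by
      refine Dvd.dvd.mul_left ?_ _
      exact_mod_cast (Lg_dvd s ha).mul_left _
    have h2 : ((ar s.length (Ms s) q + 2 : ℕ) : ℤ) ∣
        k * (((s.length + 1) * Ms s : ℕ) : ℤ) :=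
      dvd_trans (by exact_mod_cast two_dvd_Lg s _) hL
    have e1 : ((Lg s (ar s.length (Ms s) q) : ℕ) : ℤ) ∣
        q + k * (((s.length + 1) * Ms s : ℕ) : ℤ) ↔ ((Lg s (ar s.length (Ms s) q) : ℕ) : ℤ) ∣ q :=
      dvd_add_left hL
    have e2 : ((ar s.length (Ms s) q + 2 : ℕ) : ℤ) ∣
        q + k * (((s.length + 1) * Ms s : ℕ) : ℤ) ↔ ((ar s.length (Ms s) q + 2 : ℕ) : ℤ) ∣ q :=
      dvd_add_left h2
    simp only [e1, e2]

/-- marks of `nu` -/
def mkn (j : ℕ) (q : ℤ) : Fin 4 := if ((j + 2 : ℕ) : ℤ) ∣ q then 1 else 0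

/-- the component `ν_j` -/
noncomputable def nuC (j : ℕ) : Comp where
  P := j + 2
  hP := by omega
  Ψ := fun ω q => (ω q, false, mkn j q)
  meas := measurable_pi_lambda _ fun q =>
    (measurable_pi_apply q).prodMk (measurable_const.prodMk measurable_const)
  equi := by
    intro ω
    funext q
    simp only [sh, Prod.mk.injEq, true_and]
    unfold mkn
    simp only [dvd_add_self_right]

/-- bits of the component of `s` -/
noncomputable def kaC (s : List ℕ) : Comp where
  P := (s.length + 1) * Ms s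
  hP := Nat.mul_pos (by omega) (Ms_pos s)
  Ψ := fun ω q => (bt s.length (Ms s) ω q, eb s.length (Ms s) ω q, mk s q)
  meas := by
    refine measurable_pi_lambda _ fun q => ?_
    refine Measurable.prodMk ?_ (Measurable.prodMk ?_ measurable_const)
    · unfold bt
      split_ifs
      · exact measurable_pi_apply q
      · have h1 : Measurable fun ω : ℤ → Bool => (ω q, ω (nx s.length (Ms s) q)) :=
          (measurable_pi_apply q).prodMk (measurable_pi_apply _)
        exact (measurable_of_countable (fun p : Bool × Bool => xor p.1 p.2)).comp h1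
    · unfold eb
      split_ifs
      · exact measurable_pi_apply _
      · exact measurable_const
  equi := by
    intro ω
    have h := ar_add_period (n := s.length) (M := Ms s) (Ms_pos s)
    funext q
    have hq := h q 1
    have hm := mk_period s q 1
    rw [one_mul] at hq hm
    simp only [sh, Prod.mk.injEq]
    refine ⟨?_, ?_, hm.symm⟩
    · unfold bt
      rw [hq]
      unfold nx
      rw [hq]
      split_ifs
      · rfl
      · exact congrArg (fun z => xor (ω (q + (((s.length + 1) * Ms s : ℕ) : ℤ))) (ω z)) (by ring)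
      · exact congrArg (fun z => xor (ω (q + (((s.length + 1) * Ms s : ℕ) : ℤ))) (ω z)) (by ring)
    · unfold eb
      rw [hq]
      split_ifs
      · exact congrArg ω (by ring)
      · rfl

end Pool.Agent.Helper85.Finitary
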