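import Mathlib

/-!
A concrete analytic non-Borel subset of Baire space, and its description by dominated branches.
-/

set_option autoImplicit false
open MeasureTheory Set

namespace Pool.Agent.Helper85.Finitary

/-- code of the first `k` values of a pair of sequences -/
def code (k : ℕ) (x y : ℕ → ℕ) : ℕ :=
  Encodable.encode (List.ofFn fun i : Fin k => (x i, y i))

lemma code_congr {k : ℕ} {x x' y y' : ℕ → ℕ} (hx : ∀ i < k, x i = x' i)
    (hy : ∀ i < k, y i = y' i) : code k x y = code k x' y' := by
  unfold code
  congr 1
  congr 1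
  funext i
  rw [hx i i.2, hy i i.2]

lemma code_inj {k k' : ℕ} {x x' y y' : ℕ → ℕ} (h : code k x y = code k' x' y') :
    k = k' ∧ (∀ i < k, x i = x' i) ∧ (∀ i < k, y i = y' i) := by
  unfold code at h
  have h1 := Encodable.encode_injective h
  have hk : k = k' := by
    have := congrArg List.length h1
    simpa using this
  subst hk
  have h2 := List.ofFn_injective h1
  refine ⟨rfl, fun i hi => ?_, fun i hi => ?_⟩
  · have := congrFun h2 ⟨i, hi⟩
    simp only [Prod.mk.injEq] at this
    exact this.1
  · have := congrFun h2 ⟨i, hi⟩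
    simp only [Prod.mk.injEq] at this
    exact this.2

/-- the universal analytic relation -/
def Un (e x : ℕ → ℕ) : Prop := ∃ y : ℕ → ℕ, ∀ k, e (code k x y) = 0

theorem exists_code_of_analytic {A : Set (ℕ → ℕ)} (hA : AnalyticSet A) :
    ∃ e : ℕ → ℕ, ∀ x, x ∈ A ↔ Un e x := by
  classical
  rw [AnalyticSet] at hA
  rcases hA with rfl | ⟨f, hf, rfl⟩
  · refine ⟨fun _ => 1, fun x => ?_⟩
    simp [Un]
  · refine ⟨fun c => if ∃ (k : ℕ) (x y z : ℕ → ℕ), c = code k x y ∧ (∀ i < k, z i = y i) ∧
      (∀ i < k, f z i = x i) then 0 else 1, fun x => ?_⟩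
    constructor
    · rintro ⟨y, rfl⟩
      refine ⟨y, fun k => if_pos ?_⟩
      exact ⟨k, f y, y, y, rfl, fun _ _ => rfl, fun _ _ => rfl⟩
    · rintro ⟨y, hy⟩
      refine ⟨y, ?_⟩
      have h : ∀ k : ℕ, ∃ z : ℕ → ℕ, (∀ i < k, z i = y i) ∧ (∀ i < k, f z i = x i) := by
        intro k
        have hk := hy k
        by_cases hc : ∃ (k' : ℕ) (x' y' z : ℕ → ℕ), code k x y = code k' x' y' ∧
            (∀ i < k', z i = y' i) ∧ (∀ i < k', f z i = x' i)
        · obtain ⟨k', x', y', z, h1, h2, h3⟩ := hc
          obtain ⟨rfl, h4, h5⟩ := code_inj h1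
          exact ⟨z, fun i hi => (h2 i hi).trans (h5 i hi).symm,
            fun i hi => (h3 i hi).trans (h4 i hi).symm⟩
        · exact absurd ((if_neg hc).symm.trans hk) one_ne_zero
      choose z hz1 hz2 using h
      have hlim : Filter.Tendsto z Filter.atTop (nhds y) := by
        rw [tendsto_pi_nhds]
        intro i
        apply tendsto_const_nhds.congr'
        filter_upwards [Filter.eventually_gt_atTop i] with k hk
        exact (hz1 k i hk).symm
      have hlim2 : Filter.Tendsto (fun k => f (z k)) Filter.atTop (nhds (f y)) :=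
        (hf.tendsto y).comp hlim
      have hlim3 : Filter.Tendsto (fun k => f (z k)) Filter.atTop (nhds x) := by
        rw [tendsto_pi_nhds]
        intro i
        apply tendsto_const_nhds.congr'
        filter_upwards [Filter.eventually_gt_atTop i] with k hk
        exact (hz2 k i hk).symm
      exact tendsto_nhds_unique hlim2 hlim3

/-- the diagonal set, analytic and not Borel -/
def Dg : Set (ℕ → ℕ) := {x | Un x x}

theorem not_measurableSet_Dg : ¬ MeasurableSet Dg := by
  intro h
  have h2 : AnalyticSet (Dgᶜ) := h.compl.analyticSet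
  obtain ⟨e, he⟩ := exists_code_of_analytic h2
  have := he e
  simp only [mem_compl_iff, Dg, mem_ofPred_eq] at this
  tauto

/-- the tree condition at level `n` -/
def Tr (x : ℕ → ℕ) (n : ℕ) (y : ℕ → ℕ) : Prop := ∀ k ≤ n, x (code k x y) = 0

lemma Tr_congr {x : ℕ → ℕ} {n : ℕ} {y y' : ℕ → ℕ} (h : ∀ i < n, y i = y' i) :
    Tr x n y ↔ Tr x n y' := by
  unfold Tr
  refine forall_congr' fun k => ?_
  refine forall_congr' fun hk => ?_
  rw [code_congr (fun _ _ => rfl) (fun i hi => h i (lt_of_lt_of_le hi hk))]

/-- no node of the tree of level `n` lies below `s` -/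
def Bad (x : ℕ → ℕ) (n : ℕ) (s : ℕ → ℕ) : Prop :=
  ∀ t : ℕ → ℕ, (∀ i < n, t i ≤ s i) → ¬ Tr x n t

lemma Bad_congr {x : ℕ → ℕ} {n : ℕ} {s s' : ℕ → ℕ} (h : ∀ i < n, s i = s' i) :
    Bad x n s ↔ Bad x n s' := by
  unfold Bad
  refine forall_congr' fun t => ?_
  refine imp_congr_left ?_
  refine forall_congr' fun i => ?_
  refine forall_congr' fun hi => ?_
  rw [h i hi]

lemma Bad.mono {x : ℕ → ℕ} {n m : ℕ} (hnm : n ≤ m) {s : ℕ → ℕ} (h : Bad x n s) : Bad x m s := by
  intro t ht hT
  exact h t (fun i hi => ht i (lt_of_lt_of_le hi hnm)) (fun k hk => hT k (hk.trans hnm))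

theorem mem_Dg_iff (x : ℕ → ℕ) : x ∈ Dg ↔ ∃ y : ℕ → ℕ, ∀ n, ¬ Bad x n y := by
  constructor
  · rintro ⟨y, hy⟩
    refine ⟨y, fun n hb => hb y (fun _ _ => le_rfl) (fun k _ => hy k)⟩
  · rintro ⟨y, hy⟩
    have hK : IsCompact (Set.pi Set.univ (fun i => Set.Iic (y i)) : Set (ℕ → ℕ)) :=
      isCompact_univ_pi fun i => (Set.finite_Iic (y i)).isCompact
    let F : ℕ → Set (ℕ → ℕ) := fun n => {t | (∀ i, t i ≤ y i) ∧ Tr x n t}
    have hne : (⋂ n, F n).Nonempty := by
      apply IsCompact.nonempty_iInter_of_sequence_nonempty_isCompact_isClosed F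
      · intro n t ht
        exact ⟨ht.1, fun k hk => ht.2 k (by omega)⟩
      · intro n
        have := hy n
        unfold Bad at this
        push Not at this
        obtain ⟨t, ht1, ht2⟩ := this
        refine ⟨fun i => if i < n then t i else 0, ?_, ?_⟩
        · intro i
          by_cases hi : i < n
          · simp only [hi, if_true]; exact ht1 i hi
          · simp only [hi, if_false]; exact Nat.zero_le _
        · rw [Tr_congr (y' := t)]
          · exact ht2
          · intro i hi
            simp [hi]
      · refine hK.of_isClosed_subset ?_ ?_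
        · -- closed
          have : F 0 = {t | ∀ i, t i ≤ y i} ∩ {t | Tr x 0 t} := rfl
          rw [this]
          apply IsClosed.inter
          · have : {t : ℕ → ℕ | ∀ i, t i ≤ y i} = ⋂ i, {t | t i ≤ y i} := by ext; simp
            rw [this]
            exact isClosed_iInter fun i => isClosed_le (continuous_apply i) continuous_const
          · have hc : Continuous fun t : ℕ → ℕ => code 0 x t := by
              have : (fun t : ℕ → ℕ => code 0 x t) = fun _ => code 0 x x := by
                funext t; exact code_congr (fun _ _ => rfl) (fun i hi => by omega)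
              rw [this]; exact continuous_const
            have : {t : ℕ → ℕ | Tr x 0 t} = {t | x (code 0 x t) = 0} := by
              ext t; simp [Tr]
            rw [this]
            exact isClosed_eq (continuous_of_discreteTopology.comp hc) continuous_const
        · intro t ht i _
          exact ht.1 i
      · intro n
        have : F n = {t | ∀ i, t i ≤ y i} ∩ {t | Tr x n t} := rfl
        rw [this]
        apply IsClosed.inter
        · have : {t : ℕ → ℕ | ∀ i, t i ≤ y i} = ⋂ i, {t | t i ≤ y i} := by ext; simp
          rw [this]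
          exact isClosed_iInter fun i => isClosed_le (continuous_apply i) continuous_const
        · have hc : ∀ k, Continuous fun t : ℕ → ℕ => code k x t := by
            intro k
            rw [continuous_discrete_rng]
            intro c
            rw [isOpen_iff_mem_nhds]
            intro t ht
            have : {t' : ℕ → ℕ | ∀ i ∈ Finset.range k, t' i = t i} ∈ nhds t := by
              have : {t' : ℕ → ℕ | ∀ i ∈ Finset.range k, t' i = t i}
                  = ⋂ i ∈ Finset.range k, {t' | t' i = t i} := by ext; simp
              rw [this]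
              rw [Filter.biInter_finset_mem]
              intro i _
              have ho : IsOpen ((fun p : ℕ → ℕ => p i) ⁻¹' {t i}) :=
                (isOpen_discrete {t i}).preimage (continuous_apply i)
              exact ho.mem_nhds rfl
            filter_upwards [this] with t' ht'
            simp only [mem_preimage, mem_singleton_iff] at ht ⊢
            rw [← ht]
            exact code_congr (fun _ _ => rfl) (fun i hi => ht' i (Finset.mem_range.2 hi))
          have : {t : ℕ → ℕ | Tr x n t} = ⋂ k ∈ Finset.range (n + 1), {t | x (code k x t) = 0} := by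
            ext t
            simp [Tr]
          rw [this]
          exact isClosed_biInter fun k _ =>
            isClosed_eq (continuous_of_discreteTopology.comp (hc k)) continuous_const
    obtain ⟨t, ht⟩ := hne
    refine ⟨t, fun k => ?_⟩
    have := (mem_iInter.1 ht k).2
    exact this k le_rfl

/-- `Bad` is a Borel condition in the first variable -/
theorem measurableSet_Bad (n : ℕ) (s : ℕ → ℕ) : MeasurableSet {x : ℕ → ℕ | Bad x n s} := by
  have h1 : {x : ℕ → ℕ | Bad x n s} = ⋂ l : List ℕ,
      {x | (∀ i < n, l.getD i 0 ≤ s i) → ¬ Tr x n (fun i => l.getD i 0)} := by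
    ext x
    simp only [mem_ofPred_eq, mem_iInter]
    constructor
    · intro h l
      exact h _
    · intro h t ht
      have := h (List.ofFn fun i : Fin n => t i)
      have h3 : ∀ i < n, (List.ofFn fun i : Fin n => t i).getD i 0 = t i := by
        intro i hi
        rw [List.getD_eq_getElem _ _ (by simpa using hi)]
        simp
      rw [Tr_congr h3] at this
      exact this (fun i hi => by rw [h3 i hi]; exact ht i hi)
  rw [h1]
  refine MeasurableSet.iInter fun l => ?_
  refine MeasurableSet.imp (MeasurableSet.const _) ?_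
  refine MeasurableSet.compl ?_
  have : {x : ℕ → ℕ | Tr x n (fun i => l.getD i 0)}
      = ⋂ k ∈ Finset.range (n + 1), {x | x (code k x (fun i => l.getD i 0)) = 0} := by
    ext t
    simp [Tr]
  change MeasurableSet {x : ℕ → ℕ | Tr x n (fun i => l.getD i 0)}
  rw [this]
  refine Finset.measurableSet_biInter _ fun k _ => ?_
  have h2 : {x : ℕ → ℕ | x (code k x (fun i => l.getD i 0)) = 0}
      = ⋃ c : ℕ, ({x | code k x (fun i => l.getD i 0) = c} ∩ {x | x c = 0}) := by
    ext x; simp
  rw [h2]
  refine MeasurableSet.iUnion fun c => MeasurableSet.inter ?_ ?_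
  · have h3 : {x : ℕ → ℕ | code k x (fun i => l.getD i 0) = c} = ⋃ l' : List ℕ,
        ((⋂ i ∈ Finset.range k, {x : ℕ → ℕ | x i = l'.getD i 0}) ∩
          {x | code k (fun i => l'.getD i 0) (fun i => l.getD i 0) = c}) := by
      ext x
      simp only [mem_ofPred_eq, mem_iUnion, mem_inter_iff, mem_iInter, Finset.mem_range]
      constructor
      · intro hx
        refine ⟨List.ofFn fun i : Fin k => x i, ?_⟩
        have h3 : ∀ i < k, x i = (List.ofFn fun i : Fin k => x i).getD i 0 := by
          intro i hi
          rw [List.getD_eq_getElem _ _ (by simpa using hi)]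
          simp
        refine ⟨h3, ?_⟩
        rw [← hx]
        exact code_congr (fun i hi => (h3 i hi).symm) (fun _ _ => rfl)
      · rintro ⟨l', h4, h5⟩
        rw [← h5]
        exact code_congr h4 (fun _ _ => rfl)
    rw [h3]
    refine MeasurableSet.iUnion fun l' => MeasurableSet.inter ?_ (MeasurableSet.const _)
    refine Finset.measurableSet_biInter _ fun i _ => ?_
    exact measurableSet_eq_fun (measurable_pi_apply i) measurable_const
  · exact measurableSet_eq_fun (measurable_pi_apply c) measurable_const

end Pool.Agent.Helper85.Finitary
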