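import Pool.Agent.Helper85.Finitary.Neg2
import Pool.Agent.Helper85.Finitary.NonBorel

/-!
The set of finitary coin extensions is not Borel.
-/

set_option autoImplicit false
open MeasureTheory Set

namespace Pool.Agent.Helper85.Finitary

/-- the component number `k` when the switch is `v` -/
noncomputable def ch (v : Bool) (k : ℕ) : Comp :=
  match Denumerable.ofNat Idx k with
  | Sum.inl j => nuC j
  | Sum.inr s => if v then kaC s else nuC 0

lemma ch_inl (v : Bool) (j : ℕ) : ch v (Encodable.encode (Sum.inl j : Idx)) = nuC j := by
  unfold ch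
  rw [Denumerable.ofNat_encode]

lemma ch_inr (v : Bool) (s : List ℕ) : ch v (ix s) = if v then kaC s else nuC 0 := by
  unfold ch ix
  rw [Denumerable.ofNat_encode]

open Classical in
/-- the switches belonging to a point of Baire space -/
noncomputable def sw (x : ℕ → ℕ) (k : ℕ) : Bool :=
  match Denumerable.ofNat Idx k with
  | Sum.inl _ => false
  | Sum.inr s => decide (2 ≤ s.length ∧ Bad x s.length (val s))

lemma sw_inr (x : ℕ → ℕ) (s : List ℕ) :
    sw x (ix s) = true ↔ 2 ≤ s.length ∧ Bad x s.length (val s) := by
  unfold sw ix
  rw [Denumerable.ofNat_encode]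
  simp

lemma measurable_sw : Measurable sw := by
  classical
  refine measurable_pi_lambda _ fun k => ?_
  refine measurable_to_bool ?_
  rcases h : Denumerable.ofNat Idx k with j | s
  · have : (fun x => sw x k) ⁻¹' {true} = ∅ := by
      ext x
      simp [sw, h]
    rw [this]; exact MeasurableSet.empty
  · have : (fun x => sw x k) ⁻¹' {true} = {_x | 2 ≤ s.length} ∩ {x | Bad x s.length (val s)} := by
      ext x
      simp [sw, h]
    rw [this]
    exact (MeasurableSet.const _).inter (measurableSet_Bad _ _)

/-- the measure belonging to a point of Baire space -/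
noncomputable def muX (x : ℕ → ℕ) : ProbabilityMeasure (ℤ → Al) :=
  mixP fun k => ch (sw x k) k

theorem inF_iff (x : ℕ → ℕ) : InF (muX x) ↔ x ∈ Dg := by
  constructor
  · intro h
    by_contra hx
    rw [mem_Dg_iff] at hx
    push Not at hx
    refine not_inF (c := fun k => ch (sw x k) k) ?_ ?_ h
    · intro j
      exact ⟨Encodable.encode (Sum.inl j : Idx), ch_inl _ j⟩
    · intro y
      obtain ⟨n, hn⟩ := hx y
      obtain ⟨m, hm2, hn2⟩ : ∃ m, 2 ≤ m ∧ Bad x m y := ⟨n + 2, by omega, hn.mono (by omega)⟩
      have hlen : (List.ofFn fun i : Fin m => y i).length = m := List.length_ofFn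
      have hget : ∀ a < m, val (List.ofFn fun i : Fin m => y i) a = y a := by
        intro a ha
        unfold val
        rw [List.getD_eq_getElem _ _ (by rw [hlen]; exact ha), List.getElem_ofFn]
      refine ⟨List.ofFn fun i : Fin m => y i, by rw [hlen]; exact hm2, ?_, ?_⟩
      · intro a ha
        exact hget a (by rwa [hlen] at ha)
      · have hsw : sw x (ix (List.ofFn fun i : Fin m => y i)) = true := by
          rw [sw_inr, hlen]
          exact ⟨hm2, (Bad_congr fun i hi => (hget i hi).symm).1 hn2⟩
        change ch (sw x _) _ = _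
        rw [hsw, ch_inr, if_pos rfl]
  · intro hx
    rw [mem_Dg_iff] at hx
    obtain ⟨y, hy⟩ := hx
    refine inF_of_windows (inc := {s | 2 ≤ s.length ∧ Bad x s.length (val s)}) (y := y) ?_ ?_ ?_
    · intro s hs; have := hs.1; omega
    · rintro s ⟨hs1, hs2⟩
      by_contra hcon
      push Not at hcon
      have h1 := hy s.length
      unfold Bad at h1
      push Not at h1
      obtain ⟨t, ht1, ht2⟩ := h1
      exact hs2 t (fun i hi => (ht1 i hi).trans (hcon i hi)) ht2
    · intro k
      rcases h : Denumerable.ofNat Idx k with j | s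
      · have hk : k = Encodable.encode (Sum.inl j : Idx) := by
          rw [← h, Denumerable.encode_ofNat]
        left
        exact ⟨j, by rw [hk, ch_inl]⟩
      · have hk : k = ix s := by
          unfold ix; rw [← h, Denumerable.encode_ofNat]
        rw [hk, ch_inr]
        by_cases hb : sw x (ix s) = true
        · rw [if_pos hb]
          right
          exact ⟨s, (sw_inr x s).1 hb, rfl⟩
        · rw [if_neg hb]
          left
          exact ⟨0, rfl⟩

theorem measurable_muX : @Measurable _ _ _ (borel (ProbabilityMeasure (ℤ → Al))) muX := by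
  borelize (ProbabilityMeasure (ℤ → Al))
  have h1 : Measurable fun b : ℕ → Bool => mixP fun k => ch (b k) k :=
    (continuous_mixP ch).measurable
  exact h1.comp measurable_sw

theorem not_borel : ¬ MeasurableSet[borel (ProbabilityMeasure (ℤ → Al))] {μ | InF μ} := by
  intro h
  have h1 := measurable_muX h
  have h2 : muX ⁻¹' {μ | InF μ} = Dg := by
    ext x
    exact inF_iff x
  rw [h2] at h1
  exact not_measurableSet_Dg h1

end Pool.Agent.Helper85.Finitary
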