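import Pool.Agent.Helper85.Finitary.Kappa

/-!
Recognition of the components from windows of the mark track.
-/

set_option autoImplicit false
open MeasureTheory Set
open scoped ENNReal

namespace Pool.Agent.Helper85.Finitary

lemma ar_block {n M : ℕ} {a i k : ℤ} (ha : 0 ≤ a) (han : a ≤ n) (hi : 0 ≤ i) (hiM : i < M) :
    (ar n M (a * M + i + k * (((n + 1) * M : ℕ) : ℤ)) : ℤ) = a := by
  have hM : 0 < M := by omega
  rw [ar_add_period hM, ar_cast]
  have h1 : (a * (M : ℤ) + i) / M = a := by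
    rw [add_comm, Int.add_mul_ediv_right _ _ (by omega : (M : ℤ) ≠ 0),
      Int.ediv_eq_zero_of_lt hi hiM, zero_add]
  rw [h1]
  exact Int.emod_eq_of_lt ha (by omega)

/-- recognition of the run of threes -/
lemma run_three {n M m : ℕ} (hM : 0 < M) (hn : 1 ≤ n) (hm : 0 < m) {q : ℤ}
    (h1 : ∀ i : ℤ, 0 ≤ i → i < m → ar n M (q + i) = n) (h2 : ar n M (q - 1) ≠ n)
    (h3 : ar n M (q + m) ≠ n) : m = M ∧ ∃ t : ℤ, q = n * M + t * (((n + 1) * M : ℕ) : ℤ) := by
  have hMz : (M : ℤ) ≠ 0 := by omega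
  have hq0 : ar n M q = n := by simpa using h1 0 le_rfl (by omega)
  have hc := ar_cast n M q
  rw [hq0] at hc
  have hdm := Int.emod_add_mul_ediv q M
  have hu0 := Int.emod_nonneg q hMz
  have hu1 : q % (M : ℤ) < M := Int.emod_lt_of_pos q (by omega)
  have hdc := Int.emod_add_mul_ediv (q / (M : ℤ)) ((n : ℤ) + 1)
  set u := q % (M : ℤ) with hu
  set c := q / (M : ℤ) with hcdef
  set t := c / ((n : ℤ) + 1) with ht
  have hct : c = n + t * ((n : ℤ) + 1) := by
    rw [← hc] at hdc; rw [← hdc]; ring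
  have hqe : ∀ v : ℤ, v = u + c * M + (v - q) := by
    intro v; rw [← hdm]; ring
  have hval : ∀ v : ℤ, q + v = (n : ℤ) * M + (u + v) + t * (((n + 1) * M : ℕ) : ℤ) := by
    intro v
    have : q = u + M * c := hdm.symm
    rw [this, hct]; push_cast; ring
  have hu : u = 0 := by
    by_contra hne
    apply h2
    have := hval (-1)
    have h4 : q - 1 = (n : ℤ) * M + (u + -1) + t * (((n + 1) * M : ℕ) : ℤ) := by
      rw [← this]; ring
    rw [h4]
    have h5 := ar_block (n := n) (M := M) (a := n) (i := u + -1) (k := t) (by omega) le_rfl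
      (by omega) (by omega)
    exact_mod_cast h5
  have hq : q = n * M + t * (((n + 1) * M : ℕ) : ℤ) := by
    have := hval 0
    rw [hu] at this
    simpa using this
  refine ⟨?_, t, hq⟩
  rcases lt_trichotomy m M with h | h | h
  · exfalso
    apply h3
    rw [hval m, hu]
    have h5 := ar_block (n := n) (M := M) (a := n) (i := 0 + m) (k := t) (by omega) le_rfl
      (by omega) (by omega)
    exact_mod_cast h5
  · exact h
  · exfalso
    have h4 := h1 M (by omega) (by omega)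
    have h5 : q + (M : ℤ) = 0 * M + 0 + (t + 1) * (((n + 1) * M : ℕ) : ℤ) := by
      rw [hq]; push_cast; ring
    rw [h5] at h4
    have h6 := ar_block (n := n) (M := M) (a := 0) (i := 0) (k := t + 1) le_rfl (by omega)
      le_rfl (by omega)
    omega

/-- two components with equal marks on a long window coincide -/
theorem match_kk {s s' : List ℕ} (hs : 1 ≤ s.length) (hs' : 1 ≤ s'.length) {r r' N : ℤ}
    (hN : 2 * (((s.length + 1) * Ms s : ℕ) : ℤ) ≤ N)
    (h : ∀ i : ℤ, |i| ≤ N → mk s (i + r) = mk s' (i + r')) :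
    s = s' ∧ ∃ t : ℤ, r = r' + t * (((s.length + 1) * Ms s : ℕ) : ℤ) := by
  set n := s.length with hn
  set M := Ms s with hM
  have hMpos : 0 < M := Ms_pos s
  set P : ℤ := (((n + 1) * M : ℕ) : ℤ) with hP
  have hPM : (M : ℤ) ≤ P := by
    rw [hP]; exact_mod_cast Nat.le_mul_of_pos_left M (by omega)
  have hPpos : 0 < P := by omega
  set k0 : ℤ := (n * M - r) % P with hk0
  have hk1 : 0 ≤ k0 := Int.emod_nonneg _ (by omega)
  have hk2 : k0 < P := Int.emod_lt_of_pos _ hPpos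
  have hk3 : ∃ t : ℤ, k0 + r = n * M + t * P := by
    refine ⟨-((n * M - r) / P), ?_⟩
    have := Int.emod_add_mul_ediv (n * M - r) P
    rw [← hk0] at this
    linarith
  obtain ⟨t, ht⟩ := hk3
  -- marks of `s` at these places
  have m1 : ∀ i : ℤ, 0 ≤ i → i < M → mk s (k0 + i + r) = 3 := by
    intro i hi hiM
    rw [mk_eq_three]
    have h5 := ar_block (n := n) (M := M) (a := n) (i := i) (k := t) (by omega) le_rfl hi hiM
    have h6 : k0 + i + r = (n : ℤ) * M + i + t * (((n + 1) * M : ℕ) : ℤ) := by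
      rw [← hP]; linarith
    rw [h6]
    exact_mod_cast h5
  have m2 : mk s (k0 - 1 + r) ≠ 3 := by
    rw [Ne, mk_eq_three]
    have h5 := ar_block (n := n) (M := M) (a := (n : ℤ) - 1) (i := M - 1) (k := t) (by omega)
      (by omega) (by omega) (by omega)
    have h6 : k0 - 1 + r = ((n : ℤ) - 1) * M + (M - 1) + t * (((n + 1) * M : ℕ) : ℤ) := by
      rw [← hP]; linarith
    rw [h6]
    intro h7
    rw [← hn, ← hM] at h7
    omega
  have m3 : mk s (k0 + M + r) ≠ 3 := by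
    rw [Ne, mk_eq_three]
    have h5 := ar_block (n := n) (M := M) (a := 0) (i := 0) (k := t + 1) (by omega)
      (by omega) (by omega) (by omega)
    have h6 : k0 + M + r = (0 : ℤ) * M + 0 + (t + 1) * (((n + 1) * M : ℕ) : ℤ) := by
      have : ((n + 1) * M : ℤ) = P := by rw [hP]; push_cast; ring
      rw [← hP]; linarith
    rw [h6]
    intro h7
    rw [← hn, ← hM] at h7
    omega
  have habs : ∀ v : ℤ, -1 ≤ v → v ≤ M → |k0 + v| ≤ N := by
    intro v hv1 hv2
    rw [abs_le]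
    constructor <;> omega
  have p1 : ∀ i : ℤ, 0 ≤ i → i < M → ar s'.length (Ms s') ((k0 + r') + i) = s'.length := by
    intro i hi hiM
    rw [← mk_eq_three]
    have := h (k0 + i) (habs i (by omega) (by omega))
    rw [m1 i hi hiM] at this
    rw [this]; congr 1; ring
  have p2 : ar s'.length (Ms s') ((k0 + r') - 1) ≠ s'.length := by
    rw [Ne, ← mk_eq_three]
    have := h (k0 + -1) (habs (-1) (by omega) (by omega))
    rw [show k0 + r' - 1 = k0 + -1 + r' by ring, ← this, show k0 + -1 + r = k0 - 1 + r by ring]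
    exact m2
  have p3 : ar s'.length (Ms s') ((k0 + r') + M) ≠ s'.length := by
    rw [Ne, ← mk_eq_three]
    have := h (k0 + M) (habs M (by omega) (by omega))
    rw [show k0 + r' + M = k0 + M + r' by ring, ← this]
    exact m3
  obtain ⟨hMM, t', ht'⟩ := run_three (Ms_pos s') hs' hMpos p1 p2 p3
  have hss : s = s' := Ms_inj hMM
  refine ⟨hss, t - t', ?_⟩
  rw [← hss, ← hn, ← hM] at ht'
  have : (t - t') * P = (k0 + r) - (k0 + r') := by
    rw [ht, ht']; ring
  rw [this]; ring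

lemma mkn_ne_three (j : ℕ) (q : ℤ) : mkn j q ≠ 3 := by
  unfold mkn
  split_ifs <;> decide

lemma exists_three {s : List ℕ} (r : ℤ) : ∃ k : ℤ, 0 ≤ k ∧
    k ≤ (((s.length + 1) * Ms s : ℕ) : ℤ) ∧ mk s (k + r) = 3 := by
  set n := s.length with hn
  set M := Ms s with hM
  have hMpos : 0 < M := Ms_pos s
  set P : ℤ := (((n + 1) * M : ℕ) : ℤ) with hP
  have hPM : (M : ℤ) ≤ P := by
    rw [hP]; exact_mod_cast Nat.le_mul_of_pos_left M (by omega)
  refine ⟨(n * M - r) % P, Int.emod_nonneg _ (by omega), (Int.emod_lt_of_pos _ (by omega)).le, ?_⟩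
  rw [mk_eq_three]
  have := Int.emod_add_mul_ediv (n * M - r) P
  have h6 : (n * M - r) % P + r
      = (n : ℤ) * M + 0 + (-((n * M - r) / P)) * (((n + 1) * M : ℕ) : ℤ) := by
    rw [← hP]; linarith
  rw [h6]
  have h5 := ar_block (n := n) (M := M) (a := n) (i := 0) (k := -((n * M - r) / P)) (by omega)
    le_rfl le_rfl (by omega)
  exact_mod_cast h5

lemma ar_succ {n M : ℕ} (hM : 0 < M) {q : ℤ} (h : ¬ (M : ℤ) ∣ q + 1) :
    ar n M (q + 1) = ar n M q := by
  unfold ar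
  congr 2
  have hu0 := Int.emod_nonneg q (by omega : (M : ℤ) ≠ 0)
  have hu1 : q % (M : ℤ) < M := Int.emod_lt_of_pos q (by omega)
  have hdm := Int.emod_add_mul_ediv q M
  have hlt : q % (M : ℤ) + 1 < M := by
    rcases lt_or_eq_of_le (show q % (M : ℤ) + 1 ≤ M by omega) with h1 | h1
    · exact h1
    · exfalso
      apply h
      refine ⟨1 + q / (M : ℤ), ?_⟩
      have : q + 1 = (q % (M : ℤ) + 1) + M * (q / M) := by linarith
      rw [this, h1]; ring
  have : q + 1 = (q % (M : ℤ) + 1) + (q / M) * M := by linarith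
  rw [this, Int.add_mul_ediv_right _ _ (by omega : (M : ℤ) ≠ 0),
    Int.ediv_eq_zero_of_lt (by omega) hlt]
  ring

/-- a window without marks `2, 3` lies in a segment of a single area -/
lemma window_const {s : List ℕ} {r' : ℤ} {N : ℕ}
    (h : ∀ i : ℕ, i ≤ N → mk s (i + r') ≠ 3 ∧ mk s (i + r') ≠ 2) :
    ∀ i : ℕ, i ≤ N → ar s.length (Ms s) (i + r') = ar s.length (Ms s) r' ∧
      ¬ ((Lg s (ar s.length (Ms s) r') : ℕ) : ℤ) ∣ (i + r') := by
  have key : ∀ i : ℕ, i ≤ N → ar s.length (Ms s) (i + r') < s.length ∧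
      ¬ ((Lg s (ar s.length (Ms s) (i + r')) : ℕ) : ℤ) ∣ (i + r') := by
    intro i hi
    obtain ⟨h1, h2⟩ := h i hi
    rw [Ne, mk_eq_three] at h1
    refine ⟨lt_of_le_of_ne (ar_le _ _ _) h1, ?_⟩
    intro h3
    apply h2
    unfold mk
    rw [if_neg h1, if_pos h3]
  have hconst : ∀ i : ℕ, i ≤ N → ar s.length (Ms s) (i + r') = ar s.length (Ms s) r' := by
    intro i
    induction i with
    | zero => intro _; simp
    | succ i ih =>
      intro hi
      rw [← ih (by omega)]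
      have h1 := key (i + 1) hi
      have h2 : (((i + 1 : ℕ) : ℤ) + r') = (i + r') + 1 := by push_cast; ring
      rw [h2] at h1 ⊢
      apply ar_succ (Ms_pos s)
      intro h3
      apply h1.2
      refine dvd_trans ?_ h3
      exact_mod_cast Lg_dvd s h1.1
  intro i hi
  refine ⟨hconst i hi, ?_⟩
  have := (key i hi).2
  rwa [hconst i hi] at this

/-- comparison of `nu` and `kappa` -/
theorem match_nk {s : List ℕ} {j : ℕ} {r r' : ℤ} {N : ℕ} (hN : 2 * (j + 2) ≤ N)
    (h : ∀ i : ℕ, i ≤ N → mkn j (i + r) = mk s (i + r')) :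
    ar s.length (Ms s) r' = j ∧ N + 1 < Lg s j := by
  have h23 : ∀ i : ℕ, i ≤ N → mk s (i + r') ≠ 3 ∧ mk s (i + r') ≠ 2 := by
    intro i hi
    rw [← h i hi]
    refine ⟨mkn_ne_three _ _, ?_⟩
    unfold mkn
    split_ifs <;> decide
  have hw := window_const h23
  set a := ar s.length (Ms s) r' with ha
  have htick : ∀ i : ℕ, i ≤ N → (((j + 2 : ℕ) : ℤ) ∣ (i + r) ↔ ((a + 2 : ℕ) : ℤ) ∣ (i + r')) := by
    intro i hi
    have h1 := h i hi
    obtain ⟨h3, h4⟩ := hw i hi
    have h5 : ar s.length (Ms s) (i + r') ≠ s.length := by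
      have := (h23 i hi).1
      rwa [Ne, mk_eq_three] at this
    unfold mk mkn at h1
    rw [if_neg h5] at h1
    rw [h3] at h1
    rw [if_neg h4] at h1
    by_cases c1 : ((j + 2 : ℕ) : ℤ) ∣ (i + r)
    · by_cases c2 : ((a + 2 : ℕ) : ℤ) ∣ (i + r')
      · exact iff_of_true c1 c2
      · rw [if_pos c1, if_neg c2] at h1
        exact absurd h1 (by decide)
    · by_cases c2 : ((a + 2 : ℕ) : ℤ) ∣ (i + r')
      · rw [if_neg c1, if_pos c2] at h1
        exact absurd h1 (by decide)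
      · exact iff_of_false c1 c2
  -- a tick position
  obtain ⟨i0, hi0, hi1⟩ : ∃ i0 : ℕ, i0 < j + 2 ∧ ((j + 2 : ℕ) : ℤ) ∣ (i0 + r) := by
    refine ⟨((-r) % ((j + 2 : ℕ) : ℤ)).toNat, ?_, ?_⟩
    · have h1 := Int.emod_lt_of_pos (-r) (show (0 : ℤ) < ((j + 2 : ℕ) : ℤ) by omega)
      have h2 := Int.emod_nonneg (-r) (show ((j + 2 : ℕ) : ℤ) ≠ 0 by omega)
      omega
    · rw [Int.toNat_of_nonneg (Int.emod_nonneg _ (by omega))]
      refine ⟨-((-r) / ((j + 2 : ℕ) : ℤ)), ?_⟩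
      have := Int.emod_add_mul_ediv (-r) ((j + 2 : ℕ) : ℤ)
      linarith
  have t1 := (htick i0 (by omega)).1 hi1
  have t2 : ((a + 2 : ℕ) : ℤ) ∣ (((i0 + (j + 2) : ℕ) : ℤ) + r') := by
    apply (htick (i0 + (j + 2)) (by omega)).1
    have : (((i0 + (j + 2) : ℕ) : ℤ) + r) = (i0 + r) + ((j + 2 : ℕ) : ℤ) := by push_cast; ring
    rw [this]
    exact dvd_add hi1 dvd_rfl
  have t3 : ((a + 2 : ℕ) : ℤ) ∣ ((j + 2 : ℕ) : ℤ) := by
    have : ((j + 2 : ℕ) : ℤ) = (((i0 + (j + 2) : ℕ) : ℤ) + r') - (i0 + r') := by push_cast; ring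
    rw [this]
    exact dvd_sub t2 t1
  have t3' : a + 2 ∣ j + 2 := by exact_mod_cast t3
  have t4 : a + 2 ≤ j + 2 := Nat.le_of_dvd (by omega) t3'
  have t5 : ((j + 2 : ℕ) : ℤ) ∣ (((i0 + (a + 2) : ℕ) : ℤ) + r) := by
    apply (htick (i0 + (a + 2)) (by omega)).2
    have : (((i0 + (a + 2) : ℕ) : ℤ) + r') = (i0 + r') + ((a + 2 : ℕ) : ℤ) := by push_cast; ring
    rw [this]
    exact dvd_add t1 dvd_rfl
  have t6 : ((j + 2 : ℕ) : ℤ) ∣ ((a + 2 : ℕ) : ℤ) := by
    have : ((a + 2 : ℕ) : ℤ) = (((i0 + (a + 2) : ℕ) : ℤ) + r) - (i0 + r) := by push_cast; ring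
    rw [this]
    exact dvd_sub t5 hi1
  have t6' : j + 2 ∣ a + 2 := by exact_mod_cast t6
  have t7 : j + 2 ≤ a + 2 := Nat.le_of_dvd (by omega) t6'
  have haj : a = j := by omega
  refine ⟨haj, ?_⟩
  by_contra hlt
  push Not at hlt
  have hLp := Lg_pos s j
  have hx : ∃ i : ℕ, i < Lg s j ∧ ((Lg s j : ℕ) : ℤ) ∣ (i + r') := by
    refine ⟨((-r') % ((Lg s j : ℕ) : ℤ)).toNat, ?_, ?_⟩
    · have h1 := Int.emod_lt_of_pos (-r') (show (0 : ℤ) < ((Lg s j : ℕ) : ℤ) by omega)
      have h2 := Int.emod_nonneg (-r') (show ((Lg s j : ℕ) : ℤ) ≠ 0 by omega)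
      omega
    · rw [Int.toNat_of_nonneg (Int.emod_nonneg _ (by omega))]
      refine ⟨-((-r') / ((Lg s j : ℕ) : ℤ)), ?_⟩
      have := Int.emod_add_mul_ediv (-r') ((Lg s j : ℕ) : ℤ)
      linarith
  obtain ⟨i, hi1, hi2⟩ := hx
  have := (hw i (by omega)).2
  rw [haj] at this
  exact this hi2

end Pool.Agent.Helper85.Finitary
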