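import Pool.Agent.Helper85.Finitary.Marks

/-!
Interior positions of the segments, and how many positions are not interior.
-/

set_option autoImplicit false
open MeasureTheory Set
open scoped ENNReal

namespace Pool.Agent.Helper85.Finitary

/-- the window of radius `k` around `q` contains no start of a segment -/
def Inter (s : List ℕ) (k : ℕ) (q : ℤ) : Prop :=
  ∀ i : ℤ, |i| ≤ (k : ℤ) → ¬ ((Lg s (ar s.length (Ms s) q) : ℕ) : ℤ) ∣ q + i

lemma Inter.area {s : List ℕ} {k : ℕ} {q : ℤ} (h : Inter s k q)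
    (ha : ar s.length (Ms s) q < s.length) (i : ℤ) (hi : |i| ≤ (k : ℤ)) :
    ar s.length (Ms s) (q + i) = ar s.length (Ms s) q := by
  have hL : ((Lg s (ar s.length (Ms s) q) : ℕ) : ℤ) ∣ ((Ms s : ℕ) : ℤ) := by
    exact_mod_cast Lg_dvd s ha
  have hpos : ∀ m : ℕ, m ≤ k → ar s.length (Ms s) (q + (m : ℤ)) = ar s.length (Ms s) q := by
    intro m
    induction m with
    | zero => intro _; simp
    | succ m ih =>
      intro hm
      rw [← ih (by omega)]
      have h2 : (q + ((m + 1 : ℕ) : ℤ)) = (q + m) + 1 := by push_cast; ring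
      rw [h2]
      apply ar_succ (Ms_pos s)
      intro h3
      refine h ((m + 1 : ℕ) : ℤ) (by rw [abs_of_nonneg (by positivity)]; exact_mod_cast hm) ?_
      rw [h2]
      exact hL.trans h3
  have hneg : ∀ m : ℕ, m ≤ k → ar s.length (Ms s) (q - (m : ℤ)) = ar s.length (Ms s) q := by
    intro m
    induction m with
    | zero => intro _; simp
    | succ m ih =>
      intro hm
      rw [← ih (by omega)]
      have h2 : (q - (m : ℤ)) = (q - ((m + 1 : ℕ) : ℤ)) + 1 := by push_cast; ring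
      rw [h2]
      symm
      apply ar_succ (Ms_pos s)
      intro h3
      refine h (-(m : ℤ)) (by rw [abs_neg, abs_of_nonneg (by positivity)]; omega) ?_
      rw [← sub_eq_add_neg, h2]
      exact hL.trans h3
  rcases le_or_gt 0 i with h0 | h0
  · obtain ⟨m, rfl⟩ := Int.eq_ofNat_of_zero_le h0
    exact hpos m (by rw [abs_of_nonneg h0] at hi; exact_mod_cast hi)
  · obtain ⟨m, hm⟩ := Int.eq_ofNat_of_zero_le (show 0 ≤ -i by omega)
    have : i = -(m : ℤ) := by omega
    subst this
    rw [← sub_eq_add_neg]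
    exact hneg m (by rw [abs_neg, abs_of_nonneg (by positivity)] at hi; exact_mod_cast hi)

lemma Inter.mark {s : List ℕ} {k : ℕ} {q : ℤ} (h : Inter s k q)
    (ha : ar s.length (Ms s) q < s.length) (i : ℤ) (hi : |i| ≤ (k : ℤ)) :
    mk s (q + i) = mkn (ar s.length (Ms s) q) (q + i) := by
  have h1 := h.area ha i hi
  unfold mk mkn
  rw [h1, if_neg (by omega), if_neg (h i hi)]

lemma ar_nat {n M q : ℕ} (hq : q < n * M) : ar n M (q : ℤ) = q / M := by
  have h1 : q / M < n := Nat.div_lt_of_lt_mul (by rwa [mul_comm])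
  have h2 := ar_cast n M (q : ℤ)
  have h3 : ((q : ℤ) / (M : ℤ)) = ((q / M : ℕ) : ℤ) := by simp
  rw [h3, Int.emod_eq_of_lt (by positivity) (by omega)] at h2
  exact_mod_cast h2

lemma ar_nat_lt {n M q : ℕ} (hq : q < n * M) : ar n M (q : ℤ) < n := by
  rw [ar_nat hq]
  exact Nat.div_lt_of_lt_mul (by rwa [mul_comm])

/-- windows of interior positions stay in `[0, n M)` -/
lemma Inter.range {s : List ℕ} {k q : ℕ} (h : Inter s k q) (hq : q < s.length * Ms s) (i : ℤ)
    (hi : |i| ≤ (k : ℤ)) : 0 ≤ (q : ℤ) + i ∧ (q : ℤ) + i < ((s.length * Ms s : ℕ) : ℤ) := by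
  have ha : ar s.length (Ms s) (q : ℤ) < s.length := ar_nat_lt hq
  have hL : ((Lg s (ar s.length (Ms s) q) : ℕ) : ℤ) ∣ ((Ms s : ℕ) : ℤ) := by
    exact_mod_cast Lg_dvd s ha
  rw [abs_le] at hi
  constructor
  · by_contra hlt
    push Not at hlt
    refine h (-(q : ℤ)) (by rw [abs_neg, abs_of_nonneg (by positivity)]; omega) ?_
    simp
  · by_contra hlt
    push Not at hlt
    refine h (((s.length * Ms s : ℕ) : ℤ) - q) (by
      rw [abs_of_nonneg (by omega)]; omega) ?_
    have : (q : ℤ) + (((s.length * Ms s : ℕ) : ℤ) - q) = (s.length : ℤ) * Ms s := by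
      push_cast; ring
    rw [this]
    exact hL.mul_left _

lemma card_dvd_interval {L t : ℕ} (hL : 0 < L) (a i : ℤ) :
    ((Finset.Ico a (a + ((L * t : ℕ) : ℤ))).filter fun q => (L : ℤ) ∣ q + i).card = t := by
  have h := Int.Ico_filter_modEq_card a (a + ((L * t : ℕ) : ℤ)) (r := (L : ℤ))
    (by exact_mod_cast hL) (-i)
  have h1 : ∀ q : ℤ, q ≡ -i [ZMOD L] ↔ (L : ℤ) ∣ q + i := by
    intro q
    rw [Int.modEq_iff_dvd, ← dvd_neg]
    rw [show -(-i - q) = q + i by ring]
  simp_rw [h1] at h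
  have hLq : ((L : ℤ) : ℚ) ≠ 0 := by
    have : (L : ℚ) ≠ 0 := by exact_mod_cast hL.ne'
    simpa using this
  have h2 : (((a + ((L * t : ℕ) : ℤ) : ℤ) : ℚ) - ((-i : ℤ) : ℚ)) / ((L : ℤ) : ℚ)
      = (((a : ℤ) : ℚ) - ((-i : ℤ) : ℚ)) / ((L : ℤ) : ℚ) + ((t : ℤ) : ℚ) := by
    push_cast
    have : (L : ℚ) ≠ 0 := by simpa using hLq
    field_simp
    ring
  rw [h2, Int.ceil_add_intCast] at h
  have h3 : (((Finset.Ico a (a + ((L * t : ℕ) : ℤ))).filter fun q => (L : ℤ) ∣ q + i).card : ℤ)
      = t := by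
    rw [h]; omega
  exact_mod_cast h3

/-- number of non-interior positions of an area -/
lemma card_not_inter {s : List ℕ} {a k : ℕ} (ha : a < s.length)
    (hk : (2 * k + 1) * 2 ^ (a + 4) ≤ Lg s a) [DecidablePred fun q : ℕ => Inter s k (q : ℤ)] :
    (((Finset.range (s.length * Ms s)).filter fun q : ℕ =>
      ar s.length (Ms s) (q : ℤ) = a ∧ ¬ Inter s k (q : ℤ)).card) * 2 ^ (a + 4) ≤ Ms s := by
  classical
  obtain ⟨t, ht⟩ := Lg_dvd s ha
  set L := Lg s a with hL
  have hLpos : 0 < L := by have := Lg_pos s a; omega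
  set T := (Finset.range (s.length * Ms s)).filter fun q : ℕ =>
      ar s.length (Ms s) (q : ℤ) = a ∧ ¬ Inter s k (q : ℤ) with hT
  have hsub : T.image (fun q : ℕ => (q : ℤ)) ⊆
      (Finset.Icc (-(k : ℤ)) k).biUnion fun i =>
        (Finset.Ico ((a * Ms s : ℕ) : ℤ) (((a * Ms s : ℕ) : ℤ) + ((L * t : ℕ) : ℤ))).filter
          fun q => (L : ℤ) ∣ q + i := by
    intro z hz
    rw [Finset.mem_image] at hz
    obtain ⟨q, hq, rfl⟩ := hz
    rw [hT, Finset.mem_filter, Finset.mem_range] at hq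
    obtain ⟨hq1, hq2, hq3⟩ := hq
    unfold Inter at hq3
    push Not at hq3
    obtain ⟨i, hi1, hi2⟩ := hq3
    rw [Finset.mem_biUnion]
    refine ⟨i, ?_, ?_⟩
    · rw [Finset.mem_Icc]; exact abs_le.1 hi1
    · rw [Finset.mem_filter, Finset.mem_Ico, ← ht]
      have h1 := ar_nat hq1
      rw [hq2] at h1
      have h2 : a * Ms s ≤ q := by rw [h1]; exact Nat.div_mul_le_self q (Ms s)
      have h3 : q < a * Ms s + Ms s := by
        have := Nat.lt_succ_self (q / Ms s)
        have h4 := (Nat.div_lt_iff_lt_mul (Ms_pos s)).1 this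
        rw [← h1] at h4
        linarith [Nat.succ_mul a (Ms s)]
      refine ⟨⟨by exact_mod_cast h2, by exact_mod_cast h3⟩, ?_⟩
      rw [hq2] at hi2
      exact hi2
  have hcard : T.card ≤ (2 * k + 1) * t := by
    have h1 : T.card = (T.image (fun q : ℕ => (q : ℤ))).card :=
      (Finset.card_image_of_injective _ Nat.cast_injective).symm
    rw [h1]
    refine (Finset.card_le_card hsub).trans (Finset.card_biUnion_le.trans ?_)
    have h2 : ∀ i ∈ Finset.Icc (-(k : ℤ)) k,
        ((Finset.Ico ((a * Ms s : ℕ) : ℤ) (((a * Ms s : ℕ) : ℤ) + ((L * t : ℕ) : ℤ))).filter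
          fun q => (L : ℤ) ∣ q + i).card = t := fun i _ => card_dvd_interval hLpos _ i
    rw [Finset.sum_congr rfl h2]
    simp only [Finset.sum_const, Int.card_Icc, smul_eq_mul]
    refine Nat.mul_le_mul_right _ ?_
    omega
  calc T.card * 2 ^ (a + 4) ≤ ((2 * k + 1) * t) * 2 ^ (a + 4) := Nat.mul_le_mul_right _ hcard
    _ = ((2 * k + 1) * 2 ^ (a + 4)) * t := by ring
    _ ≤ L * t := Nat.mul_le_mul_right _ hk
    _ = Ms s := ht.symm

/-- if the bits agree on the first `n - 1` areas then they agree on the last one -/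
lemma bt_last {n M : ℕ} (hM : 0 < M) {ω ω' : ℤ → Bool}
    (h : ∀ q : ℕ, q < (n - 1) * M → bt n M ω q = bt n M ω' q) {q : ℕ} (hq : q < n * M) :
    bt n M ω q = bt n M ω' q := by
  by_cases hq1 : q < (n - 1) * M
  · exact h q hq1
  · push Not at hq1
    have hn : 1 ≤ n := by
      rcases Nat.eq_zero_or_pos n with h0 | h0
      · subst h0; simp at hq
      · exact h0
    obtain ⟨u, hu⟩ := Nat.exists_eq_add_of_le hq1
    have hnM : n * M = (n - 1) * M + M := by
      obtain ⟨m, rfl⟩ : ∃ m, n = m + 1 := ⟨n - 1, by omega⟩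
      simp; ring
    have huM : u < M := by omega
    have h0 : ar n M (u : ℤ) = 0 := by
      have h5 := ar_block (n := n) (M := M) (a := 0) (i := u) (k := 0) le_rfl (by omega)
        (by omega) (by omega)
      have h6 : (0 : ℤ) * M + u + 0 * (((n + 1) * M : ℕ) : ℤ) = u := by ring
      rw [h6] at h5
      exact_mod_cast h5
    have hconst : ∀ b : ℕ, b + 1 ≤ n →
        xor (ω (u + (b : ℤ) * M)) (ω' (u + (b : ℤ) * M)) = xor (ω u) (ω' u) := by
      intro b
      induction b with
      | zero => intro _; simp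
      | succ b ih =>
        intro hb
        rw [← ih (by omega)]
        have h1 := h (u + b * M) (by
          have : (n - 1) * M ≥ (b + 1) * M := Nat.mul_le_mul_right _ (by omega)
          nlinarith)
        have e1 : (((u + b * M : ℕ) : ℤ)) = u + (b : ℤ) * M := by push_cast; ring
        rw [e1, bt_eq hM ω h0 (by omega), bt_eq hM ω' h0 (by omega), if_neg (by omega),
          if_neg (by omega), if_neg (by omega)] at h1
        have e2 : ((b + 1 : ℕ) : ℤ) = (((b + 1 : ℕ)) : ℤ) := rfl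
        revert h1
        generalize ω (u + (b : ℤ) * M) = p1
        generalize ω' (u + (b : ℤ) * M) = p2
        generalize ω (u + ((b + 1 : ℕ) : ℤ) * M) = p3
        generalize ω' (u + ((b + 1 : ℕ) : ℤ) * M) = p4
        cases p1 <;> cases p2 <;> cases p3 <;> cases p4 <;> simp
    have hl := hconst (n - 1) (by omega)
    have e1 : (((q : ℕ) : ℤ)) = u + ((n - 1 : ℕ) : ℤ) * M := by rw [hu]; push_cast; ring
    have hne : ¬ (n - 1 = n) := by omega
    have heq : n - 1 + 1 = n := by omega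
    rw [e1, bt_eq hM ω h0 (by omega), bt_eq hM ω' h0 (by omega)]
    simp only [if_neg hne, if_pos heq, Nat.cast_zero, zero_mul, add_zero]
    revert hl
    generalize ω (u + ((n - 1 : ℕ) : ℤ) * M) = p1
    generalize ω' (u + ((n - 1 : ℕ) : ℤ) * M) = p2
    generalize ω u = p3
    generalize ω' u = p4
    cases p1 <;> cases p2 <;> cases p3 <;> cases p4 <;> simp

end Pool.Agent.Helper85.Finitary
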