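import Pool.Agent.Helper85.Finitary.Pos
import Pool.Agent.Helper85.Finitary.Win

/-!
No finitary coin factor when all windows are short compared to the segments.
-/

set_option autoImplicit false
open MeasureTheory Set
open scoped ENNReal

namespace Pool.Agent.Helper85.Finitary

/-- points whose window of radius `k` forces the output at `0` -/
def VV (X₀ : Set (ℤ → Al)) (φ : (ℤ → Al) → (ℤ → Bool)) (k : ℕ) : Set (ℤ → Al) :=
  {x | ∃ z ∈ X₀, (∀ i : ℤ, |i| ≤ (k : ℤ) → x i = z i) ∧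
    ∀ z' ∈ X₀, (∀ i : ℤ, |i| ≤ (k : ℤ) → z' i = z i) → φ z' 0 = φ z 0}

section VV

variable {X₀ : Set (ℤ → Al)} {φ : (ℤ → Al) → (ℤ → Bool)} {k : ℕ}

lemma VV_congr {x x' : ℤ → Al} (h : ∀ i : ℤ, |i| ≤ (k : ℤ) → x i = x' i) :
    x ∈ VV X₀ φ k ↔ x' ∈ VV X₀ φ k := by
  constructor
  · rintro ⟨z, hz, h1, h2⟩
    exact ⟨z, hz, fun i hi => (h i hi).symm.trans (h1 i hi), h2⟩
  · rintro ⟨z, hz, h1, h2⟩
    exact ⟨z, hz, fun i hi => (h i hi).trans (h1 i hi), h2⟩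

lemma VV_forced {x x' : ℤ → Al} (hx : x ∈ X₀) (hx' : x' ∈ X₀) (hV : x ∈ VV X₀ φ k)
    (h : ∀ i : ℤ, |i| ≤ (k : ℤ) → x' i = x i) : φ x' 0 = φ x 0 := by
  obtain ⟨z, hz, h1, h2⟩ := hV
  rw [h2 x' hx' (fun i hi => (h i hi).trans (h1 i hi)), h2 x hx h1]

lemma measurableSet_VV : MeasurableSet (VV X₀ φ k) := by
  let I : Finset ℤ := Finset.Icc (-(k : ℤ)) k
  have h : VV X₀ φ k = I.restrict ⁻¹' (I.restrict '' VV X₀ φ k) := by
    apply Subset.antisymm (subset_preimage_image _ _)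
    rintro x ⟨x', hx', hxx⟩
    refine (VV_congr fun i hi => ?_).1 hx'
    have : i ∈ I := Finset.mem_Icc.2 (abs_le.1 hi)
    exact congrFun hxx ⟨i, this⟩
  rw [h]
  exact (Finset.measurable_restrict I) (Set.to_countable _).measurableSet

/-- the unforced set is small for large windows -/
lemma exists_window {ν : Measure (ℤ → Al)} [IsFiniteMeasure ν] {N0 : Set (ℤ → Al)}
    (hN0m : MeasurableSet N0) (hN0 : ν N0 = 0) (hsub : X₀ᶜ ⊆ N0)
    (hfin : ∀ x ∈ X₀, ∃ n : ℕ, ∀ y ∈ X₀, (∀ i : ℤ, |i| ≤ (n : ℤ) → y i = x i) → φ y 0 = φ x 0)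
    {ε : ℝ≥0∞} (hε : ε ≠ 0) : ∃ k : ℕ, ν (VV X₀ φ k)ᶜ < ε := by
  let D : ℕ → Set (ℤ → Al) := fun k => (VV X₀ φ k)ᶜ ∩ N0ᶜ
  have hX : ∀ x, x ∉ N0 → x ∈ X₀ := fun x hx => by
    by_contra h; exact hx (hsub h)
  have hDm : ∀ k, MeasurableSet (D k) := fun k => measurableSet_VV.compl.inter hN0m.compl
  have hmono : Antitone D := by
    intro k l hkl x hx
    refine ⟨fun hV => hx.1 ?_, hx.2⟩
    have hx0 := hX x hx.2
    refine ⟨x, hx0, fun _ _ => rfl, fun z' hz' h => ?_⟩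
    exact VV_forced hx0 hz' hV (fun i hi => h i (hi.trans (by exact_mod_cast hkl)))
  have hinter : ⋂ k, D k = ∅ := by
    ext x
    simp only [mem_iInter, mem_empty_iff_false, iff_false, not_forall]
    by_contra hcon
    push Not at hcon
    have hx0 := hX x (hcon 0).2
    obtain ⟨n, hn⟩ := hfin x hx0
    exact (hcon n).1 ⟨x, hx0, fun _ _ => rfl, hn⟩
  have htend := tendsto_measure_iInter_atTop (μ := ν) (fun k => (hDm k).nullMeasurableSet) hmono
    ⟨0, measure_ne_top _ _⟩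
  rw [hinter, measure_empty] at htend
  have hev := htend.eventually (gt_mem_nhds (pos_iff_ne_zero.2 hε))
  obtain ⟨k, hk⟩ := hev.exists
  refine ⟨k, lt_of_le_of_lt ?_ hk⟩
  calc ν (VV X₀ φ k)ᶜ ≤ ν (D k ∪ N0) := by
        refine measure_mono fun x hx => ?_
        by_cases h : x ∈ N0
        · exact Or.inr h
        · exact Or.inl ⟨hx, h⟩
    _ ≤ ν (D k) + ν N0 := measure_union_le _ _
    _ = ν (D k) := by rw [hN0, add_zero]

end VV

lemma card_area {n M a : ℕ} (hM : 0 < M) :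
    ((Finset.range (n * M)).filter fun q : ℕ => ar n M (q : ℤ) = a).card ≤ M := by
  have hsub : ((Finset.range (n * M)).filter fun q : ℕ => ar n M (q : ℤ) = a)
      ⊆ Finset.Ico (a * M) (a * M + M) := by
    intro q hq
    rw [Finset.mem_filter, Finset.mem_range] at hq
    obtain ⟨h1, h2⟩ := hq
    rw [ar_nat h1] at h2
    rw [Finset.mem_Ico, ← h2]
    refine ⟨Nat.div_mul_le_self q M, ?_⟩
    have h4 := (Nat.div_lt_iff_lt_mul hM).1 (Nat.lt_succ_self (q / M))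
    linarith [Nat.succ_mul (q / M) M]
  refine (Finset.card_le_card hsub).trans ?_
  simp

/-- sum over all positions of the bounds for the bad events -/
lemma sum_bound {s : List ℕ} {kk : ℕ → ℕ} (hk : ∀ a < s.length,
    (2 * kk a + 1) * 2 ^ (a + 4) ≤ Lg s a)
    [∀ k, DecidablePred fun q : ℕ => Inter s k (q : ℤ)] :
    ∑ q ∈ Finset.range (s.length * Ms s),
      ((if Inter s (kk (ar s.length (Ms s) (q : ℤ))) (q : ℤ) then (0 : ℝ≥0∞) else 1)
        + 2⁻¹ ^ (ar s.length (Ms s) (q : ℤ) + 4)) ≤ (Nh s : ℝ≥0∞) * 2⁻¹ := by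
  classical
  set n := s.length with hn
  set M := Ms s with hM
  have hmaps : ∀ q ∈ Finset.range (n * M), ar n M (q : ℤ) ∈ Finset.range n := by
    intro q hq
    rw [Finset.mem_range] at hq ⊢
    exact ar_nat_lt hq
  rw [← Finset.sum_fiberwise_of_maps_to hmaps]
  have hpow : ∀ a : ℕ, (2 : ℝ≥0∞) ^ (a + 4) * 2⁻¹ ^ (a + 4) = 1 := by
    intro a
    rw [← mul_pow, ENNReal.mul_inv_cancel (by norm_num) (by norm_num), one_pow]
  have hterm : ∀ a ∈ Finset.range n,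
      ∑ q ∈ (Finset.range (n * M)).filter (fun q : ℕ => ar n M (q : ℤ) = a),
        ((if Inter s (kk (ar n M (q : ℤ))) (q : ℤ) then (0 : ℝ≥0∞) else 1)
          + 2⁻¹ ^ (ar n M (q : ℤ) + 4)) ≤ (M : ℝ≥0∞) * wt (a + 2) := by
    intro a ha
    rw [Finset.mem_range] at ha
    have h1 : ∑ q ∈ (Finset.range (n * M)).filter (fun q : ℕ => ar n M (q : ℤ) = a),
        ((if Inter s (kk (ar n M (q : ℤ))) (q : ℤ) then (0 : ℝ≥0∞) else 1)
          + 2⁻¹ ^ (ar n M (q : ℤ) + 4))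
        = ∑ q ∈ (Finset.range (n * M)).filter (fun q : ℕ => ar n M (q : ℤ) = a),
        ((if Inter s (kk a) (q : ℤ) then (0 : ℝ≥0∞) else 1) + 2⁻¹ ^ (a + 4)) := by
      refine Finset.sum_congr rfl fun q hq => ?_
      rw [Finset.mem_filter] at hq
      rw [hq.2]
    rw [h1, Finset.sum_add_distrib]
    have h2 : ∑ q ∈ (Finset.range (n * M)).filter (fun q : ℕ => ar n M (q : ℤ) = a),
        (if Inter s (kk a) (q : ℤ) then (0 : ℝ≥0∞) else 1) ≤ (M : ℝ≥0∞) * 2⁻¹ ^ (a + 4) := by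
      have h3 : ∑ q ∈ (Finset.range (n * M)).filter (fun q : ℕ => ar n M (q : ℤ) = a),
        (if Inter s (kk a) (q : ℤ) then (0 : ℝ≥0∞) else 1)
          = (((Finset.range (n * M)).filter fun q : ℕ =>
            ar n M (q : ℤ) = a ∧ ¬ Inter s (kk a) (q : ℤ)).card : ℝ≥0∞) := by
        rw [← Finset.filter_filter, Finset.card_filter]
        push_cast
        refine Finset.sum_congr rfl fun q _ => ?_
        by_cases h : Inter s (kk a) (q : ℤ) <;> simp [h]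
      rw [h3]
      have h4 := card_not_inter (k := kk a) ha (hk a ha)
      have h5 : ((((Finset.range (n * M)).filter fun q : ℕ =>
            ar n M (q : ℤ) = a ∧ ¬ Inter s (kk a) (q : ℤ)).card : ℝ≥0∞)) * 2 ^ (a + 4)
            ≤ (M : ℝ≥0∞) := by
        exact_mod_cast h4
      calc _ = (((Finset.range (n * M)).filter fun q : ℕ =>
            ar n M (q : ℤ) = a ∧ ¬ Inter s (kk a) (q : ℤ)).card : ℝ≥0∞)
              * ((2 : ℝ≥0∞) ^ (a + 4) * 2⁻¹ ^ (a + 4)) := by rw [hpow, mul_one]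
        _ = ((((Finset.range (n * M)).filter fun q : ℕ =>
            ar n M (q : ℤ) = a ∧ ¬ Inter s (kk a) (q : ℤ)).card : ℝ≥0∞)
              * 2 ^ (a + 4)) * 2⁻¹ ^ (a + 4) := by rw [mul_assoc]
        _ ≤ _ := by gcongr
    have h6 : ∑ q ∈ (Finset.range (n * M)).filter (fun q : ℕ => ar n M (q : ℤ) = a),
        (2⁻¹ : ℝ≥0∞) ^ (a + 4) ≤ (M : ℝ≥0∞) * 2⁻¹ ^ (a + 4) := by
      rw [Finset.sum_const, nsmul_eq_mul]
      gcongr
      exact card_area (Ms_pos s)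
    refine (add_le_add h2 h6).trans ?_
    have h7 : (2⁻¹ : ℝ≥0∞) ^ (a + 4) + 2⁻¹ ^ (a + 4) = wt (a + 2) := by
      unfold wt
      rw [pow_succ 2⁻¹ (a + 3), ← mul_add, ENNReal.inv_two_add_inv_two, mul_one]
    rw [← mul_add, h7]
  refine (Finset.sum_le_sum hterm).trans ?_
  rw [← Finset.mul_sum]
  have h8 : ∑ a ∈ Finset.range n, wt (a + 2) ≤ 2⁻¹ * 2⁻¹ := by
    have h9 : ∀ a, wt (a + 2) = wt a * (2⁻¹ * 2⁻¹) := by
      intro a; unfold wt; rw [show a + 2 + 1 = a + 1 + 1 + 1 by ring, pow_succ, pow_succ, mul_assoc]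
    simp_rw [h9]
    rw [← Finset.sum_mul]
    have h10 : ∑ a ∈ Finset.range n, wt a ≤ 1 := by
      rw [← tsum_wt]; exact ENNReal.sum_le_tsum _
    calc _ ≤ 1 * (2⁻¹ * 2⁻¹ : ℝ≥0∞) := by gcongr
      _ = _ := one_mul _
  have h11 : (M : ℝ≥0∞) = (Nh s : ℝ≥0∞) * 2 := by
    rw [hM]; unfold Ms; push_cast; ring
  calc (M : ℝ≥0∞) * ∑ a ∈ Finset.range n, wt (a + 2) ≤ M * (2⁻¹ * 2⁻¹) := by gcongr
    _ = (Nh s : ℝ≥0∞) * (2 * 2⁻¹) * 2⁻¹ := by rw [h11]; ring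
    _ = _ := by rw [ENNReal.mul_inv_cancel (by norm_num) (by norm_num), mul_one]

end Pool.Agent.Helper85.Finitary
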