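import Pool.Agent.Helper85.Finitary.Neg

/-!
No finitary coin factor when all windows are short: the counting argument.
-/

set_option autoImplicit false
open MeasureTheory Set
open scoped ENNReal

namespace Pool.Agent.Helper85.Finitary

section core

variable {X₀ : Set (ℤ → Al)} {φ : (ℤ → Al) → (ℤ → Bool)} {s : List ℕ} {kk : ℕ → ℕ}

/-- the position `q` is interior and its window forces the output -/
def Gd (X₀ : Set (ℤ → Al)) (φ : (ℤ → Al) → (ℤ → Bool)) (s : List ℕ) (kk : ℕ → ℕ) (q : ℕ)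
    (ω : ℤ → Bool) : Prop :=
  Inter s (kk (ar s.length (Ms s) (q : ℤ))) (q : ℤ) ∧
    sh (q : ℤ) ((kaC s).Ψ ω) ∈ VV X₀ φ (kk (ar s.length (Ms s) (q : ℤ)))

lemma measurableSet_Gd (q : ℕ) : MeasurableSet {ω | Gd X₀ φ s kk q ω} := by
  have : {ω | Gd X₀ φ s kk q ω} =
      {_ω | Inter s (kk (ar s.length (Ms s) (q : ℤ))) (q : ℤ)} ∩
      (fun ω => sh (q : ℤ) ((kaC s).Ψ ω)) ⁻¹' VV X₀ φ (kk (ar s.length (Ms s) (q : ℤ))) := by
    ext ω; simp [Gd]
  rw [this]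
  exact (MeasurableSet.const _).inter ((kaC s).meas_ph q measurableSet_VV)

lemma measurableSet_not_Gd (q : ℕ) : MeasurableSet {ω | ¬ Gd X₀ φ s kk q ω} :=
  (measurableSet_Gd q).compl

/-- windows of interior positions look like windows of `ν_a` -/
lemma window_eq_nu {k q : ℕ} (hI : Inter s k (q : ℤ)) (hq : q < s.length * Ms s) {j : ℕ}
    (hj : ar s.length (Ms s) (q : ℤ) ≠ j) (ω : ℤ → Bool) (i : ℤ) (hi : |i| ≤ (k : ℤ)) :
    sh (q : ℤ) ((kaC s).Ψ ω) i =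
      sh (q : ℤ) ((nuC (ar s.length (Ms s) (q : ℤ))).Ψ (Out s.length (Ms s) j ω)) i := by
  have ha := ar_nat_lt hq
  have h1 := hI.area ha i hi
  have h2 := hI.mark ha i hi
  have hc : i + (q : ℤ) = (q : ℤ) + i := by ring
  change (bt s.length (Ms s) ω (i + q), eb s.length (Ms s) ω (i + q), mk s (i + q)) =
    (Out s.length (Ms s) j ω (i + q), false, mkn (ar s.length (Ms s) (q : ℤ)) (i + q))
  rw [hc, h2]
  congr 1
  · unfold Out
    rw [h1, if_neg hj]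
  · congr 1
    unfold eb
    rw [h1, if_neg (by omega)]

/-- probability of the bad events -/
lemma lam_not_Gd (hs : 2 ≤ s.length)
    (hν : ∀ a, ((a + 2 : ℕ) : ℝ≥0∞) * (nuC a).law (VV X₀ φ (kk a))ᶜ ≤ 2⁻¹ ^ (a + 4))
    {q : ℕ} (hq : q < s.length * Ms s)
    [∀ k, DecidablePred fun q : ℕ => Inter s k (q : ℤ)] :
    lam {ω | ¬ Gd X₀ φ s kk q ω} ≤
      (if Inter s (kk (ar s.length (Ms s) (q : ℤ))) (q : ℤ) then (0 : ℝ≥0∞) else 1)
        + 2⁻¹ ^ (ar s.length (Ms s) (q : ℤ) + 4) := by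
  set a := ar s.length (Ms s) (q : ℤ) with ha
  by_cases hI : Inter s (kk a) (q : ℤ)
  · rw [if_pos hI, zero_add]
    refine le_trans ?_ (hν a)
    obtain ⟨j, hjn, hja⟩ : ∃ j < s.length, a ≠ j := by
      by_cases h0 : a = 0
      · exact ⟨1, by omega, by omega⟩
      · exact ⟨0, by omega, h0⟩
    have h1 : {ω | ¬ Gd X₀ φ s kk q ω} = (Out s.length (Ms s) j) ⁻¹'
        ((fun ω => sh (q : ℤ) ((nuC a).Ψ ω)) ⁻¹' (VV X₀ φ (kk a))ᶜ) := by
      ext ω
      have hw : sh (q : ℤ) ((kaC s).Ψ ω) ∈ VV X₀ φ (kk a) ↔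
          sh (q : ℤ) ((nuC a).Ψ (Out s.length (Ms s) j ω)) ∈ VV X₀ φ (kk a) :=
        VV_congr fun i hi => window_eq_nu hI hq hja ω i hi
      simp only [mem_ofPred_eq, mem_preimage, mem_compl_iff, ← hw]
      unfold Gd
      rw [← ha]
      simp [hI]
    rw [h1, (measurePreserving_Out (Ms_pos s) hjn).measure_preimage
      (((nuC a).meas_ph q) measurableSet_VV.compl).nullMeasurableSet]
    have h2 := (nuC a).ph_le' (VV X₀ φ (kk a))ᶜ q
    unfold Comp.ph at h2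
    rw [Measure.map_apply ((nuC a).meas_ph q) measurableSet_VV.compl] at h2
    exact h2
  · rw [if_neg hI]
    refine le_trans prob_le_one ?_
    exact le_self_add

/-- the number of bad positions -/
noncomputable def bad (X₀ : Set (ℤ → Al)) (φ : (ℤ → Al) → (ℤ → Bool)) (s : List ℕ) (kk : ℕ → ℕ)
    (ω : ℤ → Bool) : ℝ≥0∞ :=
  ∑ q ∈ Finset.range (s.length * Ms s), {ω | ¬ Gd X₀ φ s kk q ω}.indicator 1 ω

lemma measurable_bad : Measurable (bad X₀ φ s kk) := by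
  unfold bad
  refine Finset.measurable_sum _ fun q _ => ?_
  exact measurable_one.indicator (measurableSet_not_Gd q)

open Classical in
lemma bad_eq (ω : ℤ → Bool) : bad X₀ φ s kk ω =
    (((Finset.range (s.length * Ms s)).filter fun q => ¬ Gd X₀ φ s kk q ω).card : ℝ≥0∞) := by
  unfold bad
  rw [Finset.card_filter]
  push_cast
  refine Finset.sum_congr rfl fun q _ => ?_
  by_cases h : Gd X₀ φ s kk q ω <;> simp [h]

lemma lam_few_bad (hs : 2 ≤ s.length)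
    (hν : ∀ a, ((a + 2 : ℕ) : ℝ≥0∞) * (nuC a).law (VV X₀ φ (kk a))ᶜ ≤ 2⁻¹ ^ (a + 4))
    (hk : ∀ a < s.length, (2 * kk a + 1) * 2 ^ (a + 4) ≤ Lg s a) :
    2⁻¹ ≤ lam {ω | bad X₀ φ s kk ω < Nh s} := by
  classical
  have h1 : ∫⁻ ω, bad X₀ φ s kk ω ∂lam ≤ (Nh s : ℝ≥0∞) * 2⁻¹ := by
    unfold bad
    rw [lintegral_finsetSum _ fun q _ => measurable_one.indicator (measurableSet_not_Gd q)]
    refine le_trans (Finset.sum_le_sum fun q hq => ?_) (sum_bound hk)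
    have h2 : ∫⁻ ω, {ω | ¬ Gd X₀ φ s kk q ω}.indicator 1 ω ∂lam
        = lam {ω | ¬ Gd X₀ φ s kk q ω} := lintegral_indicator_one (measurableSet_not_Gd q)
    rw [h2]
    exact lam_not_Gd hs hν (Finset.mem_range.1 hq)
  have h2 := (mul_meas_ge_le_lintegral (μ := lam) (measurable_bad (X₀ := X₀) (φ := φ) (s := s)
    (kk := kk)) (Nh s : ℝ≥0∞)).trans h1
  have hN0 : (Nh s : ℝ≥0∞) ≠ 0 := by have := Nh_pos s; simp; omega
  have h3 : lam {ω | (Nh s : ℝ≥0∞) ≤ bad X₀ φ s kk ω} ≤ 2⁻¹ :=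
    (ENNReal.mul_le_mul_iff_right hN0 (by simp)).1 h2
  have h4 : {ω | bad X₀ φ s kk ω < Nh s} = {ω | (Nh s : ℝ≥0∞) ≤ bad X₀ φ s kk ω}ᶜ := by
    ext ω; simp
  rw [h4, prob_compl_eq_one_sub (measurableSet_le measurable_const measurable_bad)]
  calc (2⁻¹ : ℝ≥0∞) = 1 - 2⁻¹ := ENNReal.one_sub_inv_two.symm
    _ ≤ _ := tsub_le_tsub_left h3 _

/-- windows depend only on the content of the first `n - 1` areas -/
lemma window_eq {k q : ℕ} (hI : Inter s k (q : ℤ)) (hq : q < s.length * Ms s) {ω ω' : ℤ → Bool}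
    (h : ∀ q : ℕ, q < (s.length - 1) * Ms s →
      bt s.length (Ms s) ω q = bt s.length (Ms s) ω' q) (i : ℤ) (hi : |i| ≤ (k : ℤ)) :
    sh (q : ℤ) ((kaC s).Ψ ω) i = sh (q : ℤ) ((kaC s).Ψ ω') i := by
  have ha := ar_nat_lt hq
  have h1 := hI.area ha i hi
  obtain ⟨h2, h3⟩ := hI.range hq i hi
  obtain ⟨q', hq'⟩ := Int.eq_ofNat_of_zero_le h2
  have hc : i + (q : ℤ) = q' := by rw [← hq']; ring
  change (bt s.length (Ms s) ω (i + q), eb s.length (Ms s) ω (i + q), mk s (i + q)) =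
    (bt s.length (Ms s) ω' (i + q), eb s.length (Ms s) ω' (i + q), mk s (i + q))
  rw [hq'] at h1 h3
  rw [hc, bt_last (Ms_pos s) h (show q' < s.length * Ms s by exact_mod_cast h3)]
  congr 1
  congr 1
  unfold eb
  rw [h1, if_neg (by omega), if_neg (by omega)]

open Classical in
/-- the counting argument -/
theorem count {G : Set (ℤ → Bool)} (hG1 : ∀ ω ∈ G, bad X₀ φ s kk ω < Nh s)
    (hG2 : ∀ ω ∈ G, ∀ q : ℕ, sh (q : ℤ) ((kaC s).Ψ ω) ∈ X₀)
    (hG3 : ∀ ω ∈ G, ∀ q : ℕ, φ ((kaC s).Ψ ω) q = φ (sh (q : ℤ) ((kaC s).Ψ ω)) 0) :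
    (Finset.univ.filter fun v : Fin (s.length * Ms s) → Bool =>
      ∃ ω ∈ G, ∀ q : Fin (s.length * Ms s), φ ((kaC s).Ψ ω) ((q : ℕ) : ℤ) = v q).card
      ≤ 2 ^ ((s.length - 1) * Ms s) * 2 ^ Nh s := by
  let ct : (ℤ → Bool) → Fin ((s.length - 1) * Ms s) → Bool := fun ω q => bt s.length (Ms s) ω ((q : ℕ) : ℤ)
  let F : (Fin ((s.length - 1) * Ms s) → Bool) → Finset (Fin (s.length * Ms s) → Bool) := fun u =>
    if h : ∃ ω ∈ G, ct ω = u then
      Fintype.piFinset fun q : Fin (s.length * Ms s) =>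
        if Gd X₀ φ s kk q h.choose then {φ ((kaC s).Ψ h.choose) ((q : ℕ) : ℤ)} else Finset.univ
    else ∅
  have hF : ∀ u, (F u).card ≤ 2 ^ Nh s := by
    intro u
    simp only [F]
    split_ifs with h
    · rw [Fintype.card_piFinset]
      have hG := hG1 _ h.choose_spec.1
      set ω := h.choose with hω
      rw [bad_eq] at hG
      have hlt : ((Finset.range (s.length * Ms s)).filter fun q => ¬ Gd X₀ φ s kk q ω).card < Nh s := by
        exact_mod_cast hG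
      have h1 : ∀ q : Fin (s.length * Ms s), (if Gd X₀ φ s kk q ω then
          ({φ ((kaC s).Ψ ω) ((q : ℕ) : ℤ)} : Finset Bool) else Finset.univ).card
          = (fun q : ℕ => if Gd X₀ φ s kk q ω then 1 else 2) (q : ℕ) := by
        intro q
        by_cases hg : Gd X₀ φ s kk q ω <;> simp [hg]
      rw [Finset.prod_congr rfl fun q _ => h1 q, Fin.prod_univ_eq_prod_range
        (fun q : ℕ => if Gd X₀ φ s kk q ω then 1 else 2) (s.length * Ms s)]
      rw [Finset.prod_ite]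
      simp only [Finset.prod_const_one, one_mul, Finset.prod_const]
      exact Nat.pow_le_pow_right (by norm_num) hlt.le
    · simp
  refine le_trans (Finset.card_le_card (t := Finset.univ.biUnion F) ?_) ?_
  · intro v hv
    rw [Finset.mem_filter] at hv
    obtain ⟨-, ω, hω, hv⟩ := hv
    rw [Finset.mem_biUnion]
    refine ⟨ct ω, Finset.mem_univ _, ?_⟩
    have h : ∃ ω' ∈ G, ct ω' = ct ω := ⟨ω, hω, rfl⟩
    simp only [F]
    rw [dif_pos h, Fintype.mem_piFinset]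
    intro q
    have hω' := h.choose_spec.1
    have hct := h.choose_spec.2
    set ω' := h.choose with hωdef
    by_cases hg : Gd X₀ φ s kk q ω'
    · rw [if_pos hg, Finset.mem_singleton, ← hv q]
      rw [hG3 ω hω, hG3 ω' hω']
      refine VV_forced (hG2 ω' hω' q) (hG2 ω hω q) hg.2 fun i hi => ?_
      refine window_eq hg.1 q.2 (fun q' hq' => ?_) i hi
      exact (congrFun hct ⟨q', hq'⟩).symm
    · rw [if_neg hg]
      exact Finset.mem_univ _
  refine Finset.card_biUnion_le.trans ?_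
  refine (Finset.sum_le_sum fun u _ => hF u).trans ?_
  rw [Finset.sum_const, smul_eq_mul, Finset.card_univ, Fintype.card_fun, Fintype.card_bool,
    Fintype.card_fin]

end core

/-- main negative statement -/
theorem not_inF {c : ℕ → Comp} (h1 : ∀ j, ∃ k, c k = nuC j)
    (h2 : ∀ y : ℕ → ℕ, ∃ s : List ℕ, 2 ≤ s.length ∧ (∀ a < s.length, val s a = y a) ∧
      c (ix s) = kaC s) : ¬ InF (mixP c) := by
  classical
  rintro ⟨-, φ, hφ, hcyl, X₀, hX0, hcomm, hfin⟩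
  change mix c X₀ᶜ = 0 at hX0
  set N0 := toMeasurable (mix c) X₀ᶜ with hN0def
  have hN0m : MeasurableSet N0 := measurableSet_toMeasurable _ _
  have hN0 : mix c N0 = 0 := by rw [hN0def, measure_toMeasurable, hX0]
  have hsub : X₀ᶜ ⊆ N0 := subset_toMeasurable _ _
  have hX : ∀ x, x ∉ N0 → x ∈ X₀ := fun x hx => by
    by_contra h; exact hx (hsub h)
  have hwt : ∀ k, wt k ≠ 0 := by
    intro k; unfold wt; exact pow_ne_zero _ (by simp)
  have hnu : ∀ j, (nuC j).law N0 = 0 := by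
    intro j
    obtain ⟨k, hk⟩ := h1 j
    have h3 := wt_mul_law_le c k N0
    rw [hN0, nonpos_iff_eq_zero, mul_eq_zero] at h3
    rw [← hk]
    exact h3.resolve_left (hwt k)
  have hwin : ∀ a : ℕ, ∃ k : ℕ, (nuC a).law (VV X₀ φ k)ᶜ < 2⁻¹ ^ (a + 4) * ((a + 2 : ℕ) : ℝ≥0∞)⁻¹ := by
    intro a
    apply exists_window hN0m (hnu a) hsub hfin
    refine mul_ne_zero (pow_ne_zero _ (by simp)) ?_
    simp only [ne_eq, ENNReal.inv_eq_zero]
    exact ENNReal.natCast_ne_top _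
  choose kk hkk using hwin
  have hν : ∀ a, ((a + 2 : ℕ) : ℝ≥0∞) * (nuC a).law (VV X₀ φ (kk a))ᶜ ≤ 2⁻¹ ^ (a + 4) := by
    intro a
    calc _ ≤ ((a + 2 : ℕ) : ℝ≥0∞) * (2⁻¹ ^ (a + 4) * ((a + 2 : ℕ) : ℝ≥0∞)⁻¹) := by
          gcongr; exact (hkk a).le
      _ = 2⁻¹ ^ (a + 4) * (((a + 2 : ℕ) : ℝ≥0∞) * ((a + 2 : ℕ) : ℝ≥0∞)⁻¹) := by ring
      _ = _ := by
        rw [ENNReal.mul_inv_cancel (by simp) (ENNReal.natCast_ne_top _), mul_one]
  obtain ⟨s, hs2, hval, hcs⟩ := h2 fun a => (2 * kk a + 1) * 2 ^ (a + 4)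
  have hk : ∀ a < s.length, (2 * kk a + 1) * 2 ^ (a + 4) ≤ Lg s a := by
    intro a ha
    unfold Lg
    rw [hval a ha]
    nlinarith [Nat.zero_le ((2 * kk a + 1) * 2 ^ (a + 4)), Nat.zero_le a,
      Nat.zero_le (a * ((2 * kk a + 1) * 2 ^ (a + 4)))]
  -- orbits in `X₀`
  have hinvq : ∀ q : ℕ, (mix c).map (sh (q : ℤ)) = mix c := by
    intro q
    induction q with
    | zero =>
      have : (sh ((0 : ℕ) : ℤ) : (ℤ → Al) → ℤ → Al) = id := by
        funext x; simp [sh_zero]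
      rw [this, Measure.map_id]
    | succ q ih =>
      have : (sh ((q + 1 : ℕ) : ℤ) : (ℤ → Al) → ℤ → Al) = sh 1 ∘ sh (q : ℤ) := by
        funext x; simp only [Function.comp, sh_sh]; congr 1; push_cast; ring
      rw [this, ← Measure.map_map (measurable_sh 1) (measurable_sh _), ih, mix_sh]
  set E0 : Set (ℤ → Al) := {x | ∀ q : ℕ, sh (q : ℤ) x ∉ N0} with hE0
  have hE0c : E0ᶜ = ⋃ q : ℕ, (sh (q : ℤ)) ⁻¹' N0 := by
    ext x; simp [hE0]
  have hE0m : MeasurableSet E0ᶜ := by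
    rw [hE0c]; exact MeasurableSet.iUnion fun q => measurable_sh _ hN0m
  have hE0z : mix c E0ᶜ = 0 := by
    rw [hE0c, measure_iUnion_null_iff]
    intro q
    rw [← Measure.map_apply (measurable_sh _) hN0m, hinvq q, hN0]
  have hphi : ∀ x ∈ E0, ∀ q : ℕ, φ (sh (q : ℤ) x) = sh (q : ℤ) (φ x) := by
    intro x hx q
    induction q with
    | zero => simp [sh_zero]
    | succ q ih =>
      have h3 := hcomm (sh (q : ℤ) x) (hX _ (hx q))
      have h4 : (fun i => sh (q : ℤ) x (i + 1)) = sh ((q + 1 : ℕ) : ℤ) x := by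
        funext i; simp only [sh]; congr 1; push_cast; ring
      rw [h4, ih] at h3
      rw [h3]
      funext i; simp only [sh]; congr 1; push_cast; ring
  -- transfer
  set k0 := ix s with hk0
  have htrans : ∀ E : Set (ℤ → Al), MeasurableSet E →
      lam ((kaC s).Ψ ⁻¹' E) ≤ ((kaC s).P : ℝ≥0∞) * ((wt k0)⁻¹ * mix c E) := by
    intro E hE
    have h3 : lam ((kaC s).Ψ ⁻¹' E) = (kaC s).ph ((0 : ℕ) : ℤ) E := by
      unfold Comp.ph
      rw [Measure.map_apply ((kaC s).meas_ph _) hE]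
      congr 1
      ext ω
      simp [sh_zero]
    rw [h3]
    refine ((kaC s).ph_le E (kaC s).hP).trans ?_
    gcongr
    have h4 := wt_mul_law_le c k0 E
    rw [hcs] at h4
    calc (kaC s).law E = (wt k0)⁻¹ * (wt k0 * (kaC s).law E) := by
          rw [← mul_assoc, ENNReal.inv_mul_cancel (hwt k0) (wt_ne_top k0), one_mul]
      _ ≤ _ := by gcongr
  -- the good event
  set G : Set (ℤ → Bool) := {ω | bad X₀ φ s kk ω < Nh s} ∩ (kaC s).Ψ ⁻¹' E0 with hG
  have hGm : 2⁻¹ ≤ lam G := by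
    refine (lam_few_bad hs2 hν hk).trans ?_
    have h3 : lam ((kaC s).Ψ ⁻¹' E0ᶜ) = 0 := by
      have := htrans E0ᶜ hE0m
      rw [hE0z, mul_zero, mul_zero, nonpos_iff_eq_zero] at this
      exact this
    calc lam {ω | bad X₀ φ s kk ω < Nh s} ≤ lam (G ∪ (kaC s).Ψ ⁻¹' E0ᶜ) := by
          refine measure_mono fun ω hω => ?_
          by_cases h : (kaC s).Ψ ω ∈ E0
          · exact Or.inl ⟨hω, h⟩
          · exact Or.inr h
      _ ≤ lam G + lam ((kaC s).Ψ ⁻¹' E0ᶜ) := measure_union_le _ _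
      _ = lam G := by rw [h3, add_zero]
  have hcount := count (X₀ := X₀) (φ := φ) (s := s) (kk := kk) (G := G)
    (fun ω hω => hω.1) (fun ω hω q => hX _ (hω.2 q))
    (fun ω hω q => by rw [hphi _ hω.2 q]; simp [sh])
  set n := s.length with hn
  set M := Ms s with hM
  set 𝒮 := Finset.univ.filter fun v : Fin (n * M) → Bool =>
      ∃ ω ∈ G, ∀ q : Fin (n * M), φ ((kaC s).Ψ ω) ((q : ℕ) : ℤ) = v q with h𝒮
  have hone : ∀ v : Fin (n * M) → Bool,
      lam ((kaC s).Ψ ⁻¹' {x | ∀ q : Fin (n * M), φ x ((q : ℕ) : ℤ) = v q}) ≤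
        ((kaC s).P : ℝ≥0∞) * ((wt k0)⁻¹ * 2⁻¹ ^ (n * M)) := by
    intro v
    have hset : {x | ∀ q : Fin (n * M), φ x ((q : ℕ) : ℤ) = v q} =
        φ ⁻¹' {z | ∀ i ∈ (Finset.range (n * M)).image (fun q : ℕ => (q : ℤ)),
          z i = (fun i : ℤ => if h : i.toNat < n * M then v ⟨i.toNat, h⟩ else false) i} := by
      ext x
      simp only [mem_ofPred_eq, mem_preimage, Finset.mem_image, Finset.mem_range]
      constructor
      · rintro h i ⟨q, hq, rfl⟩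
        rw [h ⟨q, hq⟩]
        simp [hq]
      · intro h q
        rw [h _ ⟨q, q.2, rfl⟩]
        simp
    have hcm : MeasurableSet {z : ℤ → Bool | ∀ i ∈ (Finset.range (n * M)).image
        (fun q : ℕ => (q : ℤ)),
          z i = (fun i : ℤ => if h : i.toNat < n * M then v ⟨i.toNat, h⟩ else false) i} := by
      have : {z : ℤ → Bool | ∀ i ∈ (Finset.range (n * M)).image
        (fun q : ℕ => (q : ℤ)),
          z i = (fun i : ℤ => if h : i.toNat < n * M then v ⟨i.toNat, h⟩ else false) i} =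
          ⋂ i ∈ (Finset.range (n * M)).image (fun q : ℕ => (q : ℤ)), {z | z i =
            (fun i : ℤ => if h : i.toNat < n * M then v ⟨i.toNat, h⟩ else false) i} := by
        ext z; simp
      rw [this]
      exact Finset.measurableSet_biInter _ fun i _ =>
        measurableSet_eq_fun (measurable_pi_apply i) measurable_const
    rw [hset]
    refine (htrans _ (hφ hcm)).trans ?_
    have h5 := hcyl ((Finset.range (n * M)).image (fun q : ℕ => (q : ℤ)))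
      (fun i : ℤ => if h : i.toNat < n * M then v ⟨i.toNat, h⟩ else false)
    rw [prod_coinP, Finset.card_image_of_injective _ Nat.cast_injective, Finset.card_range] at h5
    change (mix c).map φ _ = _ at h5
    rw [Measure.map_apply hφ hcm] at h5
    rw [h5]
  have hbig : lam G ≤ (2 : ℝ≥0∞) ^ ((n - 1) * M) * 2 ^ Nh s *
      (((kaC s).P : ℝ≥0∞) * ((wt k0)⁻¹ * 2⁻¹ ^ (n * M))) := by
    calc lam G ≤ lam (⋃ v ∈ 𝒮, (kaC s).Ψ ⁻¹'
          {x | ∀ q : Fin (n * M), φ x ((q : ℕ) : ℤ) = v q}) := by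
          refine measure_mono fun ω hω => ?_
          rw [mem_iUnion₂]
          refine ⟨fun q => φ ((kaC s).Ψ ω) ((q : ℕ) : ℤ), ?_, ?_⟩
          · rw [h𝒮, Finset.mem_filter]
            exact ⟨Finset.mem_univ _, ω, hω, fun _ => rfl⟩
          · intro q; rfl
      _ ≤ ∑ v ∈ 𝒮, lam ((kaC s).Ψ ⁻¹'
          {x | ∀ q : Fin (n * M), φ x ((q : ℕ) : ℤ) = v q}) := measure_biUnion_finset_le _ _
      _ ≤ ∑ v ∈ 𝒮, (((kaC s).P : ℝ≥0∞) * ((wt k0)⁻¹ * 2⁻¹ ^ (n * M))) :=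
          Finset.sum_le_sum fun v _ => hone v
      _ = (𝒮.card : ℝ≥0∞) * (((kaC s).P : ℝ≥0∞) * ((wt k0)⁻¹ * 2⁻¹ ^ (n * M))) := by
          rw [Finset.sum_const, nsmul_eq_mul]
      _ ≤ _ := by
          gcongr
          exact_mod_cast hcount
  have hfinal := hGm.trans hbig
  -- numerical contradiction
  have hnM : n * M = (n - 1) * M + Nh s + Nh s := by
    obtain ⟨m, hm⟩ : ∃ m, n = m + 1 := ⟨n - 1, by omega⟩
    rw [hm]; simp only [Nat.add_sub_cancel]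
    have : M = Nh s + Nh s := by rw [hM]; unfold Ms; ring
    rw [Nat.succ_mul, add_assoc, ← this]
  have hwi : (wt k0)⁻¹ = 2 ^ (k0 + 1) := by
    unfold wt; rw [← ENNReal.inv_pow, inv_inv]
  have hcancel : ∀ m : ℕ, (2 : ℝ≥0∞) ^ m * 2⁻¹ ^ m = 1 := by
    intro m
    rw [← mul_pow, ENNReal.mul_inv_cancel (by norm_num) (by norm_num), one_pow]
  have heq : (2 : ℝ≥0∞) ^ ((n - 1) * M) * 2 ^ Nh s *
      (((kaC s).P : ℝ≥0∞) * ((wt k0)⁻¹ * 2⁻¹ ^ (n * M))) =
      ((kaC s).P : ℝ≥0∞) * 2 ^ (k0 + 1) * 2⁻¹ ^ Nh s := by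
    rw [hnM, hwi, pow_add 2⁻¹, pow_add 2⁻¹]
    calc _ = ((2 : ℝ≥0∞) ^ ((n - 1) * M) * 2⁻¹ ^ ((n - 1) * M)) * (2 ^ Nh s * 2⁻¹ ^ Nh s) *
          (((kaC s).P : ℝ≥0∞) * 2 ^ (k0 + 1) * 2⁻¹ ^ Nh s) := by ring
      _ = _ := by rw [hcancel, hcancel, one_mul, one_mul]
  rw [heq] at hfinal
  have h6 : (2 : ℝ≥0∞) ^ Nh s ≤ ((kaC s).P : ℝ≥0∞) * 2 ^ (k0 + 2) := by
    calc (2 : ℝ≥0∞) ^ Nh s = 2 ^ Nh s * (2 * 2⁻¹) := by
          rw [ENNReal.mul_inv_cancel (by norm_num) (by norm_num), mul_one]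
      _ = 2 ^ Nh s * 2 * 2⁻¹ := by ring
      _ ≤ 2 ^ Nh s * 2 * (((kaC s).P : ℝ≥0∞) * 2 ^ (k0 + 1) * 2⁻¹ ^ Nh s) := by gcongr
      _ = (2 ^ Nh s * 2⁻¹ ^ Nh s) * (((kaC s).P : ℝ≥0∞) * 2 ^ (k0 + 2)) := by
          rw [pow_succ 2 (k0 + 1)]; ring
      _ = _ := by rw [hcancel, one_mul]
  have h7 : 2 ^ Nh s ≤ (kaC s).P * 2 ^ (k0 + 2) := by exact_mod_cast h6
  have h8 := main_ineq s
  change 2 ^ Nh s ≤ ((s.length + 1) * Ms s) * 2 ^ (ix s + 2) at h7
  omega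

end Pool.Agent.Helper85.Finitary
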