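import Pool.Agent.Helper85.Finitary.Marks

/-!
Finitary coin factors of mixtures when some window exceeds its segments.
-/

set_option autoImplicit false
open MeasureTheory Set
open scoped ENNReal

namespace Pool.Agent.Helper85.Finitary

/-- the set of the problem for the alphabet `Al` and the fair coin -/
def InF (μ : ProbabilityMeasure (ℤ → Al)) : Prop :=
  Measure.map (fun x : ℤ → Al => fun i => x (i + 1)) (μ : Measure (ℤ → Al))
      = (μ : Measure (ℤ → Al)) ∧
  ∃ φ : (ℤ → Al) → (ℤ → Bool), Measurable φ ∧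
    (∀ (s : Finset ℤ) (w : ℤ → Bool),
      Measure.map φ (μ : Measure (ℤ → Al)) {z | ∀ i ∈ s, z i = w i}
        = ∏ i ∈ s, (coinP : Measure Bool) {w i}) ∧
    ∃ X₀ : Set (ℤ → Al), (μ : Measure (ℤ → Al)) X₀ᶜ = 0 ∧
      (∀ x ∈ X₀, φ (fun i => x (i + 1)) = fun i => φ x (i + 1)) ∧
      ∀ x ∈ X₀, ∃ n : ℕ, ∀ y ∈ X₀,
        (∀ i : ℤ, |i| ≤ (n : ℤ) → y i = x i) → φ y 0 = φ x 0

lemma prod_coinP (s : Finset ℤ) (w : ℤ → Bool) :
    ∏ i ∈ s, (coinP : Measure Bool) {w i} = 2⁻¹ ^ s.card := by
  have : ∀ b : Bool, (coinP : Measure Bool) {b} = 2⁻¹ := fun b => coin_singleton b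
  simp [this]

section phi

variable (inc : Set (List ℕ)) (J : List ℕ → ℕ)

/-- the marks of `x` are those of `s` with phase `r` -/
def Mt (s : List ℕ) (r : ℤ) (x : ℤ → Al) : Prop := ∀ i : ℤ, (x i).2.2 = mk s (i + r)

/-- the position `k` lies in a replaced area -/
def Sel0 (x : ℤ → Al) (k : ℤ) : Prop :=
  ∃ s : List ℕ, ∃ r : ℤ, s ∈ inc ∧ Mt s r x ∧ ar s.length (Ms s) (k + r) = J s

/-- the position `k` lies in a replaced area and the extra bit is one -/
def Sel1 (x : ℤ → Al) (k : ℤ) : Prop :=
  ∃ s : List ℕ, ∃ r : ℤ, s ∈ inc ∧ Mt s r x ∧ ar s.length (Ms s) (k + r) = J s ∧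
    (x (k + ((s.length : ℤ) - J s) * Ms s)).2.1 = true

open Classical in
/-- the finitary code -/
noncomputable def phi (x : ℤ → Al) (k : ℤ) : Bool :=
  decide (Sel1 inc J x k ∨ (¬ Sel0 inc J x k ∧ (x k).1 = true))

variable {inc J}

lemma measurableSet_Mt (s : List ℕ) (r : ℤ) : MeasurableSet {x | Mt s r x} := by
  have : {x : ℤ → Al | Mt s r x} = ⋂ i : ℤ, {x | (x i).2.2 = mk s (i + r)} := by
    ext x; simp [Mt]
  rw [this]
  refine MeasurableSet.iInter fun i => ?_
  exact measurableSet_eq_fun (measurable_snd.comp (measurable_snd.comp (measurable_pi_apply i)))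
    measurable_const

variable (inc J) in
lemma measurable_phi : Measurable (phi inc J) := by
  classical
  refine measurable_pi_lambda _ fun k => ?_
  refine measurable_to_bool ?_
  have h : (fun x => phi inc J x k) ⁻¹' {true}
      = {x | Sel1 inc J x k} ∪ ({x | Sel0 inc J x k}ᶜ ∩ {x | (x k).1 = true}) := by
    ext x
    simp [phi]
  rw [h]
  refine MeasurableSet.union ?_ (MeasurableSet.inter (MeasurableSet.compl ?_) ?_)
  · have : {x | Sel1 inc J x k} = ⋃ s : List ℕ, ⋃ r : ℤ,
        ({_x | s ∈ inc} ∩ ({x | Mt s r x} ∩ ({_x | ar s.length (Ms s) (k + r) = J s} ∩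
          {x | (x (k + ((s.length : ℤ) - J s) * Ms s)).2.1 = true}))) := by
      ext x; simp [Sel1]
    rw [this]
    refine MeasurableSet.iUnion fun s => MeasurableSet.iUnion fun r => ?_
    refine (MeasurableSet.const _).inter ((measurableSet_Mt s r).inter
      ((MeasurableSet.const _).inter ?_))
    exact measurableSet_eq_fun
      (measurable_fst.comp (measurable_snd.comp (measurable_pi_apply _))) measurable_const
  · have : {x | Sel0 inc J x k} = ⋃ s : List ℕ, ⋃ r : ℤ,
        ({_x | s ∈ inc} ∩ ({x | Mt s r x} ∩ {_x | ar s.length (Ms s) (k + r) = J s})) := by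
      ext x; simp [Sel0]
    rw [this]
    refine MeasurableSet.iUnion fun s => MeasurableSet.iUnion fun r => ?_
    exact (MeasurableSet.const _).inter ((measurableSet_Mt s r).inter (MeasurableSet.const _))
  · exact measurableSet_eq_fun (measurable_fst.comp (measurable_pi_apply k)) measurable_const

variable (inc J) in
lemma phi_shift (x : ℤ → Al) (k : ℤ) :
    phi inc J (fun i => x (i + 1)) k = phi inc J x (k + 1) := by
  have hM : ∀ (s : List ℕ) (r : ℤ), Mt s r (fun i => x (i + 1)) ↔ Mt s (r - 1) x := by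
    intro s r
    constructor
    · intro h i
      have := h (i - 1)
      simp only [sub_add_cancel] at this
      rw [this]; congr 1; ring
    · intro h i
      have := h (i + 1)
      show (x (i + 1)).2.2 = _
      rw [this]; congr 1; ring
  have h0 : Sel0 inc J (fun i => x (i + 1)) k ↔ Sel0 inc J x (k + 1) := by
    constructor
    · rintro ⟨s, r, hs, h1, h2⟩
      refine ⟨s, r - 1, hs, (hM s r).1 h1, ?_⟩
      rw [← h2]; congr 1; ring
    · rintro ⟨s, r, hs, h1, h2⟩
      refine ⟨s, r + 1, hs, (hM s _).2 (by simpa using h1), ?_⟩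
      rw [← h2]; congr 1; ring
  have h1 : Sel1 inc J (fun i => x (i + 1)) k ↔ Sel1 inc J x (k + 1) := by
    constructor
    · rintro ⟨s, r, hs, h1, h2, h3⟩
      refine ⟨s, r - 1, hs, (hM s r).1 h1, ?_, ?_⟩
      · rw [← h2]; congr 1; ring
      · rw [← h3]; congr 3; ring
    · rintro ⟨s, r, hs, h1, h2, h3⟩
      refine ⟨s, r + 1, hs, (hM s _).2 (by simpa using h1), ?_, ?_⟩
      · rw [← h2]; congr 1; ring
      · show (x (k + ((s.length : ℤ) - J s) * Ms s + 1)).2.1 = true
        rw [← h3]; congr 3; ring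
  unfold phi
  rw [h0, h1]

lemma phi_kappa (hinc : ∀ s ∈ inc, 1 ≤ s.length) {s : List ℕ} (hs : s ∈ inc) {r : ℤ}
    {x : ℤ → Al} (hx : Mt s r x) (k : ℤ) :
    phi inc J x k = if ar s.length (Ms s) (k + r) = J s then
      (x (k + ((s.length : ℤ) - J s) * Ms s)).2.1 else (x k).1 := by
  have huniq : ∀ (s' : List ℕ) (r' : ℤ), s' ∈ inc → Mt s' r' x →
      s' = s ∧ ar s.length (Ms s) (k + r') = ar s.length (Ms s) (k + r) := by
    intro s' r' hs' hx'
    obtain ⟨h1, t, ht⟩ := match_kk (hinc s hs) (hinc s' hs') (r := r) (r' := r') le_rfl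
      (fun i _ => by rw [← hx i, ← hx' i])
    refine ⟨h1.symm, ?_⟩
    rw [ht, ← add_assoc, ar_add_period (Ms_pos s)]
  have h0 : Sel0 inc J x k ↔ ar s.length (Ms s) (k + r) = J s := by
    constructor
    · rintro ⟨s', r', hs', h1, h2⟩
      obtain ⟨rfl, h4⟩ := huniq s' r' hs' h1
      rw [← h4]; exact h2
    · intro h; exact ⟨s, r, hs, hx, h⟩
  have h1 : Sel1 inc J x k ↔ ar s.length (Ms s) (k + r) = J s ∧
      (x (k + ((s.length : ℤ) - J s) * Ms s)).2.1 = true := by
    constructor
    · rintro ⟨s', r', hs', h1, h2, h3⟩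
      obtain ⟨rfl, h4⟩ := huniq s' r' hs' h1
      exact ⟨by rw [← h4]; exact h2, h3⟩
    · rintro ⟨h2, h3⟩; exact ⟨s, r, hs, hx, h2, h3⟩
  unfold phi
  rw [h0, h1]
  by_cases h : ar s.length (Ms s) (k + r) = J s
  · simp [h]
  · simp [h]

lemma phi_nu {j : ℕ} {r : ℤ} {x : ℤ → Al} (hx : ∀ i : ℤ, (x i).2.2 = mkn j (i + r)) (k : ℤ) :
    phi inc J x k = (x k).1 := by
  have hno : ∀ (s : List ℕ) (r' : ℤ), ¬ Mt s r' x := by
    intro s r' h
    obtain ⟨i, -, -, hi⟩ := exists_three (s := s) r'
    have := h i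
    rw [hi, hx] at this
    exact mkn_ne_three _ _ this
  have h0 : ¬ Sel0 inc J x k := by
    rintro ⟨s', r', -, h1, -⟩
    exact hno _ _ h1
  have h1 : ¬ Sel1 inc J x k := by
    rintro ⟨s', r', -, h1, -⟩
    exact hno _ _ h1
  unfold phi
  simp [h0, h1]

lemma map_phi_kappa (hinc : ∀ s ∈ inc, 1 ≤ s.length) (hJ : ∀ s ∈ inc, J s < s.length)
    {s : List ℕ} (hs : s ∈ inc) (r : ℤ) : ((kaC s).ph r).map (phi inc J) = lam := by
  unfold Comp.ph
  rw [Measure.map_map (measurable_phi inc J) ((kaC s).meas_ph r)]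
  have h : (phi inc J ∘ fun ω => sh r ((kaC s).Ψ ω))
      = sh r ∘ Out s.length (Ms s) (J s) := by
    funext ω k
    simp only [Function.comp]
    have hx : Mt s r (sh r ((kaC s).Ψ ω)) := fun i => rfl
    rw [phi_kappa hinc hs hx]
    change _ = Out s.length (Ms s) (J s) ω (k + r)
    by_cases h1 : ar s.length (Ms s) (k + r) = J s
    · rw [if_pos h1, Out_eq_eb (Ms_pos s) (hJ s hs) ω h1]
      change eb s.length (Ms s) ω (k + ((s.length : ℤ) - J s) * Ms s + r) = _
      congr 1; ring
    · rw [if_neg h1]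
      unfold Out
      rw [if_neg h1]
      rfl
  rw [h, ← Measure.map_map (measurable_sh r) (measurePreserving_Out (Ms_pos s) (hJ s hs)).measurable,
    (measurePreserving_Out (Ms_pos s) (hJ s hs)).map_eq, (measurePreserving_sh r).map_eq]

lemma map_phi_nu (j : ℕ) (r : ℤ) : ((nuC j).ph r).map (phi inc J) = lam := by
  unfold Comp.ph
  rw [Measure.map_map (measurable_phi inc J) ((nuC j).meas_ph r)]
  have h : (phi inc J ∘ fun ω => sh r ((nuC j).Ψ ω)) = sh r := by
    funext ω k
    simp only [Function.comp]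
    have hx : ∀ i, (sh r ((nuC j).Ψ ω) i).2.2 = mkn j (i + r) := fun i => rfl
    rw [phi_nu hx]
    rfl
  rw [h, (measurePreserving_sh r).map_eq]

lemma map_law {c : Comp} {φ : (ℤ → Al) → (ℤ → Bool)} (hφ : Measurable φ)
    (h : ∀ r : ℕ, (c.ph r).map φ = lam) : c.law.map φ = lam := by
  ext s hs
  rw [Measure.map_apply hφ hs]
  unfold Comp.law
  simp only [Measure.smul_apply, Measure.coe_finsetSum, Finset.sum_apply, smul_eq_mul]
  have : ∀ r ∈ Finset.range c.P, (c.ph r) (φ ⁻¹' s) = lam s := by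
    intro r _
    rw [← Measure.map_apply hφ hs, h r]
  rw [Finset.sum_congr rfl this]
  simp only [Finset.sum_const, Finset.card_range, nsmul_eq_mul]
  rw [← mul_assoc, ENNReal.inv_mul_cancel (by have := c.hP; simp; omega) (by simp), one_mul]

lemma map_mix {c : ℕ → Comp} {φ : (ℤ → Al) → (ℤ → Bool)} (hφ : Measurable φ)
    (h : ∀ k, (c k).law.map φ = lam) : (mix c).map φ = lam := by
  ext s hs
  rw [Measure.map_apply hφ hs, mix_apply c (hφ hs)]
  have : ∀ k, wt k * (c k).law (φ ⁻¹' s) = wt k * lam s := by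
    intro k
    rw [← Measure.map_apply hφ hs, h k]
  simp_rw [this]
  rw [ENNReal.tsum_mul_right, tsum_wt, one_mul]

end phi

/-- the admissible components -/
def Adm (inc : Set (List ℕ)) (c : Comp) : Prop :=
  (∃ j, c = nuC j) ∨ ∃ s ∈ inc, c = kaC s

/-- main positive statement -/
theorem inF_of_windows {inc : Set (List ℕ)} (hinc : ∀ s ∈ inc, 1 ≤ s.length) {y : ℕ → ℕ}
    (hy : ∀ s ∈ inc, ∃ a < s.length, val s a < y a) {c : ℕ → Comp} (hc : ∀ k, Adm inc (c k)) :
    InF (mixP c) := by
  classical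
  choose! J hJ1 hJ2 using hy
  refine ⟨mix_sh c, phi inc J, measurable_phi inc J, ?_, ?_⟩
  · intro s w
    have h1 : (mix c).map (phi inc J) = lam := by
      refine map_mix (measurable_phi inc J) fun k => ?_
      refine map_law (measurable_phi inc J) fun r => ?_
      rcases hc k with ⟨j, hj⟩ | ⟨s, hs, hj⟩
      · rw [hj]; exact map_phi_nu j r
      · rw [hj]; exact map_phi_kappa hinc hJ1 hs r
    change (mix c).map (phi inc J) _ = _
    rw [h1, lam_cyl, prod_coinP]
  · refine ⟨{x | (∃ (j : ℕ) (r : ℤ), ∀ i : ℤ, (x i).2.2 = mkn j (i + r)) ∨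
      ∃ (s : List ℕ) (r : ℤ), s ∈ inc ∧ Mt s r x}, ?_, ?_, ?_⟩
    · change mix c _ = 0
      set X₀ : Set (ℤ → Al) := {x | (∃ (j : ℕ) (r : ℤ), ∀ i : ℤ, (x i).2.2 = mkn j (i + r)) ∨
        ∃ (s : List ℕ) (r : ℤ), s ∈ inc ∧ Mt s r x} with hX
      have hmeas : MeasurableSet X₀ := by
        have : X₀ = (⋃ j : ℕ, ⋃ r : ℤ, ⋂ i : ℤ, {x | (x i).2.2 = mkn j (i + r)}) ∪
            ⋃ s : List ℕ, ⋃ r : ℤ, ({_x | s ∈ inc} ∩ {x | Mt s r x}) := by
          ext x; simp [hX]
        rw [this]
        refine MeasurableSet.union ?_ ?_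
        · refine MeasurableSet.iUnion fun j => MeasurableSet.iUnion fun r =>
            MeasurableSet.iInter fun i => ?_
          exact measurableSet_eq_fun
            (measurable_snd.comp (measurable_snd.comp (measurable_pi_apply i))) measurable_const
        · refine MeasurableSet.iUnion fun s => MeasurableSet.iUnion fun r => ?_
          exact (MeasurableSet.const _).inter (measurableSet_Mt s r)
      rw [mix_apply c hmeas.compl]
      rw [ENNReal.tsum_eq_zero]
      intro k
      have : (c k).law X₀ᶜ = 0 := by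
        unfold Comp.law
        simp only [Measure.smul_apply, Measure.coe_finsetSum, Finset.sum_apply, smul_eq_mul]
        have : ∀ r ∈ Finset.range (c k).P, ((c k).ph r) X₀ᶜ = 0 := by
          intro r _
          unfold Comp.ph
          rw [Measure.map_apply ((c k).meas_ph r) hmeas.compl]
          have : (fun ω => sh (r : ℤ) ((c k).Ψ ω)) ⁻¹' X₀ᶜ = ∅ := by
            ext ω
            simp only [mem_preimage, mem_compl_iff, mem_empty_iff_false, iff_false, not_not]
            rcases hc k with ⟨j, hj⟩ | ⟨s, hs, hj⟩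
            · rw [hj]; exact Or.inl ⟨j, r, fun i => rfl⟩
            · rw [hj]; exact Or.inr ⟨s, r, hs, fun i => rfl⟩
          rw [this, measure_empty]
        rw [Finset.sum_eq_zero this, mul_zero]
      rw [this, mul_zero]
    · intro x _
      funext k
      exact phi_shift inc J x k
    · rintro x (⟨j, r, hx⟩ | ⟨s, r, hs, hx⟩)
      · refine ⟨2 * (j + 2) + (j + 2) * y j, ?_⟩
        intro x' hx' hm
        set N := 2 * (j + 2) + (j + 2) * y j with hN
        rw [phi_nu hx]
        have h0 := hm 0 (by simp)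
        rcases hx' with ⟨j', r', hx'⟩ | ⟨s, r', hs, hx'⟩
        · rw [phi_nu hx', h0]
        · rw [phi_kappa hinc hs hx', h0]
          have hm' : ∀ i : ℕ, i ≤ N → mkn j (i + r) = mk s (i + r') := by
            intro i hi
            have h2 := hm i (by rw [abs_of_nonneg (by positivity)]; exact_mod_cast hi)
            rw [← hx i, ← hx' i, h2]
          obtain ⟨h3, h4⟩ := match_nk (by omega) hm'
          rw [zero_add, h3, if_neg]
          intro h5
          have h6 := hJ2 s hs
          rw [← h5] at h6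
          unfold Lg at h4
          have h7 : (j + 2) * (val s j + 1) ≤ (j + 2) * y j := Nat.mul_le_mul_left _ h6
          omega
      · refine ⟨2 * ((s.length + 1) * Ms s), ?_⟩
        intro x' hx' hm
        have h0 := hm 0 (by simp)
        have hmark : ∀ i : ℤ, |i| ≤ ((2 * ((s.length + 1) * Ms s) : ℕ) : ℤ) →
            (x' i).2.2 = mk s (i + r) := by
          intro i hi
          rw [hm i hi, hx i]
        rcases hx' with ⟨j', r', hx'⟩ | ⟨s', r', hs', hx'⟩
        · exfalso
          obtain ⟨i, hi0, hi1, hi⟩ := exists_three (s := s) r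
          have h2 := hmark i (by rw [abs_of_nonneg hi0]; push_cast at hi1 ⊢; linarith)
          rw [hi, hx'] at h2
          exact mkn_ne_three _ _ h2
        · obtain ⟨h1, t, ht⟩ := match_kk (hinc s hs) (hinc s' hs') (r := r) (r' := r')
            (N := ((2 * ((s.length + 1) * Ms s) : ℕ) : ℤ)) (by push_cast; linarith)
            (fun i hi => by rw [← hmark i hi, hx' i])
          subst h1
          rw [phi_kappa hinc hs hx, phi_kappa hinc hs hx']
          have h3 : ar s.length (Ms s) (0 + r) = ar s.length (Ms s) (0 + r') := by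
            rw [ht, ← add_assoc, ar_add_period (Ms_pos s)]
          rw [h3, h0]
          have h4 : x' (0 + ((s.length : ℤ) - J s) * Ms s) = x (0 + ((s.length : ℤ) - J s) * Ms s) := by
            apply hm
            have h5 := hJ1 s hs
            have h6 : (0 : ℤ) ≤ (s.length : ℤ) - J s := by omega
            rw [zero_add, abs_of_nonneg (mul_nonneg h6 (by positivity))]
            push_cast
            have h7 : ((s.length : ℤ) - J s) * Ms s ≤ ((s.length : ℤ) + 1) * Ms s :=
              mul_le_mul_of_nonneg_right (by omega) (by positivity)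
            have h8 : (0 : ℤ) ≤ ((s.length : ℤ) + 1) * Ms s := by positivity
            linarith
          rw [h4]

end Pool.Agent.Helper85.Finitary
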